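import Mathlib

/-!
# MP_85fd23_an, project B: definitions and tools

* `EquivNorm N`: `N` is an equivalent norm; `NLip N L F`: `F` is `L`-Lipschitz for `N`;
* `StarOne N C`: property `(*^1)` of the norm `N` with the constant `C`;
* `OneSided F`: at every point `F` is, for every `κ > 0`, sub- or superdifferentiable up to `κ`;
* `PB N s φ`: the functional `φ` is bounded by `s N`;
* `Good N F s U`: on `U` the function `F` has arbitrarily precise `C^1` approximants with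
  slope (for `N`) at most `s + η`, for every `η > 0`.
-/

set_option autoImplicit false

open Filter Metric Set
open scoped Topology

namespace Pool.Agent.MP_85fd23_an.B

variable {X : Type*} [NormedAddCommGroup X] [NormedSpace ℝ X]

/-- `N` is an equivalent norm. -/
structure EquivNorm (N : X → ℝ) : Prop where
  add_le : ∀ x y, N (x + y) ≤ N x + N y
  smul : ∀ (r : ℝ) (x : X), N (r • x) = |r| * N x
  equiv : ∃ a b : ℝ, 0 < a ∧ ∀ x, a * ‖x‖ ≤ N x ∧ N x ≤ b * ‖x‖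

/-- `F` is `L`-Lipschitz for `N`. -/
def NLip (N : X → ℝ) (L : ℝ) (F : X → ℝ) : Prop := ∀ x y, |F x - F y| ≤ L * N (x - y)

/-- Property `(*^1)` for the norm `N`, with the constant `C`. -/
def StarOne (N : X → ℝ) (C : ℝ) : Prop :=
  ∀ (F : X → ℝ) (L : ℝ), 0 ≤ L → NLip N L F → ∀ ε > 0,
    ∃ h : X → ℝ, ContDiff ℝ 1 h ∧ (∀ x, |h x - F x| ≤ ε) ∧ NLip N (C * L) h

/-- At every point `F` is, for every `κ > 0`, sub- or superdifferentiable up to `κ`. -/
def OneSided (F : X → ℝ) : Prop :=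
  ∀ (x : X), ∀ κ > 0, ∃ ξ : X →L[ℝ] ℝ,
    (∀ᶠ z in 𝓝 x, F x + ξ (z - x) - κ * ‖z - x‖ ≤ F z) ∨
      (∀ᶠ z in 𝓝 x, F z ≤ F x + ξ (z - x) + κ * ‖z - x‖)

/-- The functional `φ` is bounded by `s N`. -/
def PB (N : X → ℝ) (s : ℝ) (φ : X →L[ℝ] ℝ) : Prop := ∀ v, φ v ≤ s * N v

/-- Arbitrarily precise `C^1` approximants of slope at most `s + η`. -/
def Good (N : X → ℝ) (F : X → ℝ) (s : ℝ) (U : Set X) : Prop :=
  IsOpen U ∧ ∀ ε > 0, ∀ η > 0, ∃ g : X → ℝ, ContDiffOn ℝ 1 g U ∧ (∀ x ∈ U, |g x - F x| ≤ ε) ∧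
    ∀ x ∈ U, PB N (s + η) (fderiv ℝ g x)

theorem EquivNorm.nonneg {N : X → ℝ} (hN : EquivNorm N) (x : X) : 0 ≤ N x := by
  obtain ⟨a, b, ha, h⟩ := hN.equiv
  exact (by positivity : 0 ≤ a * ‖x‖).trans (h x).1

theorem EquivNorm.neg {N : X → ℝ} (hN : EquivNorm N) (x : X) : N (-x) = N x := by
  have h := hN.smul (-1) x
  rw [neg_one_smul, abs_neg, abs_one, one_mul] at h
  exact h

theorem PB.add {N : X → ℝ} {s t : ℝ} {φ ψ : X →L[ℝ] ℝ} (h : PB N s φ) (h' : PB N t ψ) :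
    PB N (s + t) (φ + ψ) := fun v => by
  have h1 := h v
  have h2 := h' v
  rw [add_apply, add_mul]
  linarith

theorem PB.smul {N : X → ℝ} {s c : ℝ} {φ : X →L[ℝ] ℝ} (h : PB N s φ) (hc : 0 ≤ c) :
    PB N (c * s) (c • φ) := fun v => by
  have h1 := mul_le_mul_of_nonneg_left (h v) hc
  rw [smul_apply, smul_eq_mul, mul_assoc]
  exact h1

theorem PB.mono {N : X → ℝ} (hN : EquivNorm N) {s t : ℝ} {φ : X →L[ℝ] ℝ} (h : PB N s φ)
    (hst : s ≤ t) : PB N t φ := fun v =>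
  (h v).trans (mul_le_mul_of_nonneg_right hst (hN.nonneg v))

theorem PB.zero (N : X → ℝ) : PB N 0 (0 : X →L[ℝ] ℝ) := fun v => by simp

theorem PB.sum {N : X → ℝ} {ι : Type*} (T : Finset ι) (s : ι → ℝ) (φ : ι → X →L[ℝ] ℝ)
    (h : ∀ i ∈ T, PB N (s i) (φ i)) : PB N (∑ i ∈ T, s i) (∑ i ∈ T, φ i) := by
  classical
  induction T using Finset.induction_on with
  | empty => simpa using PB.zero N
  | insert i T hi ih =>
    rw [Finset.sum_insert hi, Finset.sum_insert hi]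
    exact (h i (Finset.mem_insert_self i T)).add
      (ih fun j hj => h j (Finset.mem_insert_of_mem hj))

theorem PB.of_norm {N : X → ℝ} {a t : ℝ} (ha : 0 < a) (hN : ∀ x, a * ‖x‖ ≤ N x)
    {φ : X →L[ℝ] ℝ} (hφ : ‖φ‖ ≤ t) : PB N (t / a) φ := fun v => by
  have h1 : φ v ≤ ‖φ‖ * ‖v‖ := (le_abs_self _).trans (φ.le_opNorm v)
  have h2 : ‖φ‖ * ‖v‖ ≤ t * ‖v‖ := mul_le_mul_of_nonneg_right hφ (norm_nonneg v)
  have ht : 0 ≤ t := (norm_nonneg φ).trans hφ
  have h3 : t * ‖v‖ ≤ t / a * N v := by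
    rw [div_mul_eq_mul_div, le_div_iff₀ ha]
    have h4 := mul_le_mul_of_nonneg_left (hN v) ht
    linarith
  linarith

theorem PB.abs {N : X → ℝ} (hN : EquivNorm N) {s : ℝ} {φ : X →L[ℝ] ℝ} (h : PB N s φ) (v : X) :
    |φ v| ≤ s * N v := by
  rw [abs_le]
  have h1 := h v
  have h2 := h (-v)
  rw [map_neg, hN.neg] at h2
  constructor <;> linarith

/-- Mean value. -/
theorem nlip_of_pb {N : X → ℝ} (hN : EquivNorm N) {g : X → ℝ} {s : ℝ} (hg : ContDiff ℝ 1 g)
    (h : ∀ x, PB N s (fderiv ℝ g x)) : NLip N s g := by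
  intro x y
  have hd : ∀ t : ℝ, HasDerivAt (fun t : ℝ => g (y + t • (x - y)))
      (fderiv ℝ g (y + t • (x - y)) (x - y)) t := by
    intro t
    have h1 : HasDerivAt (fun t : ℝ => y + t • (x - y)) (x - y) t := by
      simpa using ((hasDerivAt_id t).smul_const (x - y)).const_add y
    have h2 := (hg.differentiable one_ne_zero (y + t • (x - y))).hasFDerivAt
    exact h2.comp_hasDerivAt t h1
  have h3 := Convex.norm_image_sub_le_of_norm_hasDerivWithin_le (s := (univ : Set ℝ))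
    (C := s * N (x - y)) (fun t _ => (hd t).hasDerivWithinAt)
    (fun t _ => by rw [Real.norm_eq_abs]; exact (h _).abs hN _) convex_univ
    (mem_univ (0 : ℝ)) (mem_univ (1 : ℝ))
  simpa using h3

/-- A cutoff function on the line. -/
theorem exists_tau : ∃ (τ : ℝ → ℝ) (K : ℝ), ContDiff ℝ 1 τ ∧ 0 < K ∧ (∀ t ≤ 1 / 8, τ t = 1) ∧
    (∀ t, 1 / 4 ≤ t → τ t = 0) ∧ (∀ t, 0 ≤ τ t) ∧ (∀ t, τ t ≤ 1) ∧ ∀ t, |deriv τ t| ≤ K := by
  have hc : ContDiff ℝ 1 fun t : ℝ => Real.smoothTransition (2 - 8 * t) := by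
    have h1 : ContDiff ℝ 1 fun t : ℝ => 2 - 8 * t := by fun_prop
    exact (Real.smoothTransition.contDiff (n := 1)).comp h1
  have h1 : ∀ t : ℝ, t ≤ 1 / 8 → Real.smoothTransition (2 - 8 * t) = 1 := fun t ht =>
    Real.smoothTransition.one_of_one_le (by linarith)
  have h0 : ∀ t : ℝ, 1 / 4 ≤ t → Real.smoothTransition (2 - 8 * t) = 0 := fun t ht =>
    Real.smoothTransition.zero_of_nonpos (by linarith)
  obtain ⟨K, hK⟩ := (isCompact_Icc (a := (0 : ℝ)) (b := 1)).exists_bound_of_continuousOn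
    (hc.continuous_deriv le_rfl).continuousOn
  refine ⟨_, |K| + 1, hc, by positivity, h1, h0, fun t => Real.smoothTransition.nonneg _,
    fun t => Real.smoothTransition.le_one _, fun t => ?_⟩
  by_cases ht : t ∈ Icc (0 : ℝ) 1
  · have h2 := hK t ht
    rw [Real.norm_eq_abs] at h2
    have h3 := le_abs_self K
    linarith
  · have h4 : deriv (fun t : ℝ => Real.smoothTransition (2 - 8 * t)) t = 0 := by
      rw [mem_Icc, not_and_or, not_le, not_le] at ht
      rcases ht with ht | ht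
      · have h5 : (fun t : ℝ => Real.smoothTransition (2 - 8 * t)) =ᶠ[𝓝 t] fun _ => 1 := by
          filter_upwards [Iio_mem_nhds (show t < 1 / 8 by linarith)] with z hz
          exact h1 z (le_of_lt hz)
        rw [h5.deriv_eq, deriv_const]
      · have h5 : (fun t : ℝ => Real.smoothTransition (2 - 8 * t)) =ᶠ[𝓝 t] fun _ => 0 := by
          filter_upwards [Ioi_mem_nhds (show 1 / 4 < t by linarith)] with z hz
          exact h0 z (le_of_lt hz)
        rw [h5.deriv_eq, deriv_const]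
    rw [h4, abs_zero]
    positivity

end Pool.Agent.MP_85fd23_an.B
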