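import Pool.Agent.Lib.MP_85fd23_an_B.Base

/-!
# MP_85fd23_an, project B: cutoff functions
-/

set_option autoImplicit false

open Filter Metric Set
open scoped Topology

namespace Pool.Agent.MP_85fd23_an.B

variable {X : Type*} [NormedAddCommGroup X] [NormedSpace ℝ X]

/-- `C^1` cutoff functions between `infDist · E < δ / 16` and `5 δ / 16 < infDist · E`. -/
theorem exists_cut {C : ℝ} (hS : StarOne (fun x : X => ‖x‖) C) :
    ∃ K > 0, ∀ E : Set X, ∀ δ > 0, ∃ ψ : X → ℝ, ContDiff ℝ 1 ψ ∧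
      (∀ x, 0 ≤ ψ x ∧ ψ x ≤ 1) ∧ (∀ x, ‖fderiv ℝ ψ x‖ ≤ K / δ) ∧
      (∀ x, infDist x E < δ / 16 → ψ =ᶠ[𝓝 x] fun _ => 1) ∧
      ∀ x, 5 * δ / 16 < infDist x E → ψ =ᶠ[𝓝 x] fun _ => 0 := by
  obtain ⟨τ, K, hτ, hK, hτ1, hτ0, hτn, hτl, hτd⟩ := exists_tau
  refine ⟨K * (|C| + 1), by positivity, fun E δ hδ => ?_⟩
  obtain ⟨h, hh, hhd, hhl⟩ := hS (fun x => infDist x E) 1 zero_le_one (fun x y => by
    have h1 := (lipschitz_infDist_pt E).dist_le_mul x y
    rw [Real.dist_eq, dist_eq_norm] at h1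
    simpa using h1) (δ / 16) (by positivity)
  have hfd : ∀ x, ‖fderiv ℝ h x‖ ≤ |C| + 1 := by
    intro x
    have h1 : LipschitzWith (Real.toNNReal |C|) h := by
      refine LipschitzWith.of_dist_le_mul fun y z => ?_
      rw [Real.dist_eq, dist_eq_norm, Real.coe_toNNReal _ (abs_nonneg C)]
      refine (hhl y z).trans (mul_le_mul_of_nonneg_right ?_ (norm_nonneg _))
      rw [mul_one]
      exact le_abs_self C
    have h2 := norm_fderiv_le_of_lipschitz ℝ h1 (x₀ := x)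
    rw [Real.coe_toNNReal _ (abs_nonneg C)] at h2
    linarith
  have hdiv : ContDiff ℝ 1 fun x => h x / δ := hh.div_const δ
  refine ⟨fun x => τ (h x / δ), hτ.comp hdiv, fun x => ⟨hτn _, hτl _⟩, fun x => ?_,
    fun x hx => ?_, fun x hx => ?_⟩
  · have h1 : HasFDerivAt (fun x => τ (h x / δ)) (deriv τ (h x / δ) • (δ⁻¹ • fderiv ℝ h x)) x := by
      have h2 : HasFDerivAt (fun x => h x / δ) (δ⁻¹ • fderiv ℝ h x) x := by
        have h3 := ((hh.differentiable one_ne_zero x).hasFDerivAt).const_smul δ⁻¹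
        refine h3.congr_of_eventuallyEq (Eventually.of_forall fun y => ?_)
        simp only [smul_eq_mul, Pi.smul_apply]
        rw [div_eq_inv_mul]
      exact ((hτ.differentiable one_ne_zero _).hasDerivAt).comp_hasFDerivAt x h2
    rw [h1.fderiv, norm_smul, norm_smul, Real.norm_eq_abs, Real.norm_of_nonneg (by positivity :
      (0 : ℝ) ≤ δ⁻¹), div_eq_mul_inv]
    have h4 : δ⁻¹ * ‖fderiv ℝ h x‖ ≤ δ⁻¹ * (|C| + 1) :=
      mul_le_mul_of_nonneg_left (hfd x) (by positivity)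
    calc |deriv τ (h x / δ)| * (δ⁻¹ * ‖fderiv ℝ h x‖) ≤ K * (δ⁻¹ * (|C| + 1)) :=
          mul_le_mul (hτd _) h4 (by positivity) hK.le
      _ = K * (|C| + 1) * δ⁻¹ := by ring
  · have h1 : ∀ᶠ y in 𝓝 x, infDist y E < δ / 16 :=
      (continuous_infDist_pt E).continuousAt.eventually_lt continuousAt_const hx
    filter_upwards [h1] with y hy
    refine hτ1 _ ?_
    rw [div_le_iff₀ hδ]
    have h2 := (abs_le.1 (hhd y)).2
    linarith
  · have h1 : ∀ᶠ y in 𝓝 x, 5 * δ / 16 < infDist y E :=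
      continuousAt_const.eventually_lt (continuous_infDist_pt E).continuousAt hx
    filter_upwards [h1] with y hy
    refine hτ0 _ ?_
    rw [le_div_iff₀ hδ]
    have h2 := (abs_le.1 (hhd y)).1
    linarith

end Pool.Agent.MP_85fd23_an.B
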