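import Pool.Agent.Lib.MP_85fd23_an_B.Cut

/-!
# MP_85fd23_an, project B: a good set is enlarged near a point with an affine approximation
-/

set_option autoImplicit false

open Filter Metric Set
open scoped Topology

namespace Pool.Agent.MP_85fd23_an.B

variable {X : Type*} [NormedAddCommGroup X] [NormedSpace ℝ X]

/-- Averages of cutoff functions: the cost of the gluing is small. -/
theorem exists_avg {C : ℝ} (hS : StarOne (fun x : X => ‖x‖) C) {A : ℝ} (hA : 0 ≤ A)
    {c : ℝ} (hc : 0 < c) (Z : Set X) {s₀ : ℝ} (hs₀ : 0 < s₀) :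
    ∃ σ M : ℝ, 0 < σ ∧ 0 < M ∧ ∃ χ : X → ℝ, ContDiff ℝ 1 χ ∧ (∀ x, 0 ≤ χ x ∧ χ x ≤ 1) ∧
      (∀ x, infDist x Z < σ → χ =ᶠ[𝓝 x] fun _ => 1) ∧
      (∀ x, χ x ≠ 0 → infDist x Z ≤ s₀) ∧
      (∀ x, ‖fderiv ℝ χ x‖ ≤ M) ∧
      ∀ x, (σ + A * infDist x Z) * ‖fderiv ℝ χ x‖ ≤ c := by
  obtain ⟨K, hK, hcut⟩ := exists_cut hS
  obtain ⟨J, hJ⟩ := exists_nat_gt (K * (1 + A) / c)
  have hJ0 : (0 : ℝ) < J := lt_of_le_of_lt (by positivity) hJ
  obtain ⟨sc, hsc⟩ : ∃ sc : ℕ → ℝ, sc = fun j => s₀ * (1 / 8 : ℝ) ^ j := ⟨_, rfl⟩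
  have hsc0 : ∀ j, 0 < sc j := fun j => by rw [hsc]; positivity
  have hsc_le : ∀ i j, i ≤ j → sc j ≤ sc i := by
    intro i j hij
    rw [hsc]
    exact mul_le_mul_of_nonneg_left
      (pow_le_pow_of_le_one (by norm_num) (by norm_num) hij) hs₀.le
  have hsc_lt : ∀ i j, i < j → 8 * sc j ≤ sc i := by
    intro i j hij
    have h1 := hsc_le (i + 1) j hij
    have h2 : sc (i + 1) = sc i * (1 / 8) := by
      rw [hsc]
      change s₀ * (1 / 8 : ℝ) ^ (i + 1) = s₀ * (1 / 8 : ℝ) ^ i * (1 / 8)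
      rw [pow_succ]
      ring
    linarith
  choose χ h1 h2 h3 h4 h5 using fun j : ℕ => hcut Z (sc j) (hsc0 j)
  have hnz : ∀ j x, fderiv ℝ (χ j) x ≠ 0 → sc j / 16 ≤ infDist x Z ∧
      infDist x Z ≤ 5 * sc j / 16 := by
    intro j x hx
    constructor
    · by_contra hcon
      rw [not_le] at hcon
      refine hx ?_
      rw [(h4 j x hcon).fderiv_eq]
      simp
    · by_contra hcon
      rw [not_le] at hcon
      refine hx ?_
      rw [(h5 j x hcon).fderiv_eq]
      simp
  have hd : ∀ x, HasFDerivAt (fun x => (1 / (J : ℝ)) * ∑ j ∈ Finset.range J, χ j x)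
      ((1 / (J : ℝ)) • ∑ j ∈ Finset.range J, fderiv ℝ (χ j) x) x := by
    intro x
    have h6 : HasFDerivAt (fun x => ∑ j ∈ Finset.range J, χ j x)
        (∑ j ∈ Finset.range J, fderiv ℝ (χ j) x) x :=
      HasFDerivAt.fun_sum fun j _ => ((h1 j).differentiable one_ne_zero x).hasFDerivAt
    exact h6.const_mul (1 / (J : ℝ))
  have hsingle : ∀ x, (fderiv ℝ (fun x => (1 / (J : ℝ)) * ∑ j ∈ Finset.range J, χ j x) x = 0) ∨
      ∃ j ∈ Finset.range J, fderiv ℝ (χ j) x ≠ 0 ∧
        fderiv ℝ (fun x => (1 / (J : ℝ)) * ∑ j ∈ Finset.range J, χ j x) x =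
          (1 / (J : ℝ)) • fderiv ℝ (χ j) x := by
    intro x
    rw [(hd x).fderiv]
    by_cases h : ∃ j ∈ Finset.range J, fderiv ℝ (χ j) x ≠ 0
    · obtain ⟨j, hj, hne⟩ := h
      right
      refine ⟨j, hj, hne, ?_⟩
      rw [Finset.sum_eq_single_of_mem j hj fun i hi hij => ?_]
      by_contra hne'
      obtain ⟨a1, a2⟩ := hnz j x hne
      obtain ⟨b1, b2⟩ := hnz i x hne'
      have c1 := hsc0 i
      have c2 := hsc0 j
      rcases lt_or_gt_of_ne hij with hlt | hlt
      · have := hsc_lt i j hlt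
        linarith
      · have := hsc_lt j i hlt
        linarith
    · left
      push Not at h
      rw [Finset.sum_eq_zero h, smul_zero]
  have hfn : ∀ x, ∀ j, ‖(1 / (J : ℝ)) • fderiv ℝ (χ j) x‖ ≤ 1 / (J : ℝ) * (K / sc j) := by
    intro x j
    rw [norm_smul, Real.norm_of_nonneg (by positivity)]
    exact mul_le_mul_of_nonneg_left (h3 j x) (by positivity)
  refine ⟨sc J / 16, 1 / (J : ℝ) * (K / sc J), by have := hsc0 J; positivity,
    by have := hsc0 J; positivity,
    fun x => (1 / (J : ℝ)) * ∑ j ∈ Finset.range J, χ j x, ?_, ?_, ?_, ?_, ?_, ?_⟩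
  · exact contDiff_const.mul (ContDiff.sum fun j _ => h1 j)
  · intro x
    constructor
    · exact mul_nonneg (by positivity) (Finset.sum_nonneg fun j _ => (h2 j x).1)
    · have h6 : ∑ j ∈ Finset.range J, χ j x ≤ J := by
        calc ∑ j ∈ Finset.range J, χ j x ≤ ∑ j ∈ Finset.range J, (1 : ℝ) :=
              Finset.sum_le_sum fun j _ => (h2 j x).2
          _ = J := by simp
      change (1 / (J : ℝ)) * ∑ j ∈ Finset.range J, χ j x ≤ 1
      rw [one_div, ← div_eq_inv_mul, div_le_one hJ0]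
      exact h6
  · intro x hx
    have h6 : ∀ᶠ y in 𝓝 x, ∀ j ∈ Finset.range J, χ j y = 1 := by
      rw [Filter.eventually_all_finset]
      intro j hj
      rw [Finset.mem_range] at hj
      refine h4 j x (hx.trans_le ?_)
      have := hsc_le j J hj.le
      linarith
    filter_upwards [h6] with y hy
    rw [Finset.sum_congr rfl hy]
    simp only [Finset.sum_const, Finset.card_range, nsmul_eq_mul, mul_one]
    exact one_div_mul_cancel hJ0.ne'
  · intro x hx
    have h6 : ∃ j ∈ Finset.range J, χ j x ≠ 0 := by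
      by_contra hcon
      push Not at hcon
      refine hx ?_
      change (1 / (J : ℝ)) * ∑ j ∈ Finset.range J, χ j x = 0
      rw [Finset.sum_eq_zero hcon, mul_zero]
    obtain ⟨j, -, hj⟩ := h6
    by_contra hcon
    rw [not_le] at hcon
    refine hj ((h5 j x ?_).self_of_nhds)
    have h7 := hsc_le 0 j (Nat.zero_le j)
    have h8 : sc 0 = s₀ := by
      rw [hsc]
      simp
    have h9 := hsc0 j
    linarith
  · intro x
    rcases hsingle x with h | ⟨j, hj, -, h⟩
    · rw [h, norm_zero]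
      have := hsc0 J
      positivity
    · rw [h]
      refine (hfn x j).trans (mul_le_mul_of_nonneg_left ?_ (by positivity))
      rw [Finset.mem_range] at hj
      exact div_le_div_of_nonneg_left hK.le (hsc0 J) (hsc_le j J hj.le)
  · intro x
    rcases hsingle x with h | ⟨j, hj, hne, h⟩
    · rw [h, norm_zero, mul_zero]
      exact hc.le
    · obtain ⟨a1, a2⟩ := hnz j x hne
      rw [h]
      rw [Finset.mem_range] at hj
      have c1 := hsc0 j
      have c2 := hsc_le j J hj.le
      have c3 : sc J / 16 + A * infDist x Z ≤ (1 + A) * sc j := by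
        have c4 : A * infDist x Z ≤ A * sc j :=
          mul_le_mul_of_nonneg_left (by linarith) hA
        have c5 := hsc0 J
        linarith
      have c6 : 0 ≤ sc J / 16 + A * infDist x Z := by
        have c5 := hsc0 J
        have c7 : 0 ≤ infDist x Z := infDist_nonneg
        positivity
      calc (sc J / 16 + A * infDist x Z) * ‖(1 / (J : ℝ)) • fderiv ℝ (χ j) x‖
          ≤ ((1 + A) * sc j) * (1 / (J : ℝ) * (K / sc j)) :=
            mul_le_mul c3 (hfn x j) (norm_nonneg _) (by positivity)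
        _ = K * (1 + A) / J := by field_simp
        _ ≤ c := by
          rw [div_lt_iff₀ hc] at hJ
          rw [div_le_iff₀ hJ0]
          linarith

/-- The extension of a good set: near a point outside of a good set `U` the function `F` may be
replaced by any good function which coincides with `F` outside of `U`. -/
theorem good_patch {C : ℝ} (hS : StarOne (fun x : X => ‖x‖) C) {N F F₁ : X → ℝ}
    (hN : EquivNorm N) {a : ℝ} (ha : 0 < a) (hab : ∀ x, a * ‖x‖ ≤ N x) {s B r : ℝ}
    {U : Set X} (hU : Good N F s U) {x₀ : X} (hx₀ : x₀ ∉ U) (hB : 0 ≤ B)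
    (hFB : ∀ x y, |F x - F y| ≤ B * ‖x - y‖) (hFB₁ : ∀ x y, |F₁ x - F₁ y| ≤ B * ‖x - y‖)
    (hr : 0 < r) (hF₁ : Good N F₁ s (ball x₀ r))
    (heq : ∀ x, x ∉ U → ‖x - x₀‖ < r → F₁ x = F x) :
    Good N F s (ball x₀ r) := by
  refine ⟨isOpen_ball, fun ε hε η hη => ?_⟩
  obtain ⟨Z, hZ⟩ : ∃ Z : Set X, Z = {x | x ∉ U ∧ ‖x - x₀‖ < r} := ⟨_, rfl⟩
  have hZm : ∀ x, x ∈ Z ↔ x ∉ U ∧ ‖x - x₀‖ < r := fun x => by rw [hZ]; rfl
  have hZne : Z.Nonempty := ⟨x₀, (hZm x₀).2 ⟨hx₀, by rw [sub_self, norm_zero]; exact hr⟩⟩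
  obtain ⟨A, hA⟩ : ∃ A : ℝ, A = B + B := ⟨_, rfl⟩
  have hA0 : 0 ≤ A := by rw [hA]; positivity
  have hdist : ∀ y, |F y - F₁ y| ≤ A * infDist y Z := by
    intro y
    have h1 : ∀ z ∈ Z, |F y - F₁ y| ≤ A * dist y z := by
      intro z hz
      have h2 := hFB y z
      have h3 := hFB₁ y z
      have h4 := heq z ((hZm z).1 hz).1 ((hZm z).1 hz).2
      have e1 : F y - F₁ y = (F y - F z) - (F₁ y - F₁ z) := by rw [h4]; ring
      rw [e1, hA, dist_eq_norm, add_mul]
      exact (abs_sub _ _).trans (add_le_add h2 h3)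
    rcases hA0.eq_or_lt with h0 | h0
    · obtain ⟨z, hz⟩ := hZne
      have h2 := h1 z hz
      rw [← h0, zero_mul] at h2 ⊢
      exact h2
    · have h2 : |F y - F₁ y| / A ≤ infDist y Z := (le_infDist hZne).2 fun z hz => by
        rw [div_le_iff₀ h0, mul_comm]
        exact h1 z hz
      rwa [div_le_iff₀ h0, mul_comm] at h2
  have hZzero : ∀ y ∈ ball x₀ r, y ∉ U → infDist y Z = 0 := by
    intro y hy hyU
    refine infDist_zero_of_mem ((hZm y).2 ⟨hyU, ?_⟩)
    rwa [mem_ball, dist_eq_norm] at hy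
  obtain ⟨σ, M, hσ, hM, χ, hχ, hχ01, hχ1, hχ0, hχM, hχc⟩ := exists_avg hS hA0
    (c := a * (η / 4)) (by positivity) Z (s₀ := ε / (2 * (A + 1))) (by positivity)
  obtain ⟨G, hG, hGF₁, hGPB⟩ := hF₁.2 (min (ε / 2) σ) (lt_min (half_pos hε) hσ) (η / 4)
    (by positivity)
  obtain ⟨gU, hgU1, hgU2, hgU3⟩ := hU.2 (min ε (a * (η / 4) / M)) (lt_min hε (by positivity))
    (η / 4) (by positivity)
  have hGF : ∀ y ∈ ball x₀ r, |G y - F y| ≤ min (ε / 2) σ + A * infDist y Z := by
    intro y hy
    have h1 := hGF₁ y hy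
    have h2 := hdist y
    have e1 : G y - F y = (G y - F₁ y) - (F y - F₁ y) := by ring
    rw [e1]
    exact (abs_sub _ _).trans (add_le_add h1 h2)
  have hGFε : ∀ y ∈ ball x₀ r, infDist y Z ≤ ε / (2 * (A + 1)) → |G y - F y| ≤ ε := by
    intro y hyb hy
    have h1 := hGF y hyb
    have h2 : A * infDist y Z ≤ (A + 1) * (ε / (2 * (A + 1))) :=
      mul_le_mul (by linarith) hy infDist_nonneg (by linarith)
    have h3 : (A + 1) * (ε / (2 * (A + 1))) = ε / 2 := by
      have : A + 1 ≠ 0 := by positivity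
      field_simp
    have h4 := min_le_left (ε / 2) σ
    linarith
  have hmain : ∀ y ∈ ball x₀ r,
      ContDiffAt ℝ 1 (fun y => χ y * G y + (1 - χ y) * gU y) y ∧
      |(χ y * G y + (1 - χ y) * gU y) - F y| ≤ ε ∧
      PB N (s + η) (fderiv ℝ (fun y => χ y * G y + (1 - χ y) * gU y) y) := by
    intro y hy
    have hGy := hG.contDiffAt (isOpen_ball.mem_nhds hy)
    by_cases hyU : y ∈ U
    · have hUn : U ∈ 𝓝 y := hU.1.mem_nhds hyU
      have hgy := hgU1.contDiffAt hUn
      have h01 := hχ01 y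
      refine ⟨(hχ.contDiffAt.mul hGy).add
        ((contDiffAt_const.sub hχ.contDiffAt).mul hgy), ?_, ?_⟩
      · have e1 : (χ y * G y + (1 - χ y) * gU y) - F y =
            χ y * (G y - F y) + (1 - χ y) * (gU y - F y) := by ring
        have h1 : |χ y * (G y - F y)| ≤ χ y * ε := by
          by_cases h0 : χ y = 0
          · rw [h0]
            simp
          · rw [abs_mul, abs_of_nonneg h01.1]
            exact mul_le_mul_of_nonneg_left (hGFε y hy (hχ0 y h0)) h01.1
        have h2 : |(1 - χ y) * (gU y - F y)| ≤ (1 - χ y) * ε := by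
          rw [abs_mul, abs_of_nonneg (by linarith : 0 ≤ 1 - χ y)]
          exact mul_le_mul_of_nonneg_left ((hgU2 y hyU).trans (min_le_left _ _)) (by linarith)
        rw [e1]
        refine (abs_add_le _ _).trans ?_
        have e2 : χ y * ε + (1 - χ y) * ε = ε := by ring
        linarith
      · have d1 := (hχ.differentiable one_ne_zero y).hasFDerivAt
        have d2 := (hgy.differentiableAt one_ne_zero).hasFDerivAt
        have d0 := (hGy.differentiableAt one_ne_zero).hasFDerivAt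
        have d3 := ((d1.mul d0).add ((d1.const_sub 1).mul d2)).fderiv
        have e1 : fderiv ℝ (fun y => χ y * G y + (1 - χ y) * gU y) y =
            (χ y • fderiv ℝ G y + (1 - χ y) • fderiv ℝ gU y) +
              (G y - gU y) • fderiv ℝ χ y := by
          refine d3.trans ?_
          module
        have p1 := (hGPB y hy).smul h01.1
        have p2 := (hgU3 y hyU).smul (by linarith : 0 ≤ 1 - χ y)
        have p3 : PB N (a * (η / 2) / a) ((G y - gU y) • fderiv ℝ χ y) := by
          refine PB.of_norm ha hab ?_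
          rw [norm_smul, Real.norm_eq_abs]
          have q1 : |G y - gU y| ≤ (σ + A * infDist y Z) + a * (η / 4) / M := by
            have e2 : G y - gU y = (G y - F y) - (gU y - F y) := by ring
            rw [e2]
            refine (abs_sub _ _).trans (add_le_add ((hGF y hy).trans ?_)
              ((hgU2 y hyU).trans (min_le_right _ _)))
            have := min_le_right (ε / 2) σ
            linarith
          have q2 := mul_le_mul_of_nonneg_right q1 (norm_nonneg (fderiv ℝ χ y))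
          have q3 := hχc y
          have q4 : a * (η / 4) / M * ‖fderiv ℝ χ y‖ ≤ a * (η / 4) := by
            rw [div_mul_eq_mul_div, div_le_iff₀ hM]
            exact mul_le_mul_of_nonneg_left (hχM y) (by positivity)
          rw [add_mul] at q2
          linarith
        rw [mul_div_cancel_left₀ _ ha.ne'] at p3
        rw [e1]
        refine ((p1.add p2).add p3).mono hN ?_
        have e3 : χ y * (s + η / 4) + (1 - χ y) * (s + η / 4) + η / 2 = s + 3 * η / 4 := by
          ring
        linarith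
    · have h0 := hZzero y hy hyU
      have hone := hχ1 y (by rw [h0]; exact hσ)
      have eq1 : (fun y => χ y * G y + (1 - χ y) * gU y) =ᶠ[𝓝 y] G := by
        filter_upwards [hone] with z hz
        rw [hz]
        ring
      refine ⟨hGy.congr_of_eventuallyEq eq1, ?_, ?_⟩
      · have e1 := eq1.self_of_nhds
        simp only at e1
        rw [e1]
        refine hGFε y hy ?_
        rw [h0]
        positivity
      · rw [eq1.fderiv_eq]
        exact (hGPB y hy).mono hN (by linarith)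
  exact ⟨_, fun y hy => (hmain y hy).1.contDiffWithinAt, fun y hy => (hmain y hy).2.1,
    fun y hy => (hmain y hy).2.2⟩

/-- A functional plus a function with a small Lipschitz constant is good. -/
theorem good_affine {C : ℝ} (hS : StarOne (fun x : X => ‖x‖) C) {N : X → ℝ}
    (hN : EquivNorm N) {a : ℝ} (ha : 0 < a) (hab : ∀ x, a * ‖x‖ ≤ N x) {s L' κ : ℝ}
    {ξ : X →L[ℝ] ℝ} (hξ : PB N L' ξ) (hκ : 0 ≤ κ) {H : X → ℝ}
    (hH : ∀ x y, |H x - H y| ≤ κ * ‖x - y‖) (hs : L' + |C| * κ / a ≤ s) {U : Set X}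
    (hU : IsOpen U) : Good N (fun x => ξ x + H x) s U := by
  refine ⟨hU, fun ε hε η hη => ?_⟩
  obtain ⟨h, hh, hhH, hhl⟩ := hS H κ hκ (fun x y => hH x y) ε hε
  have hhd : ∀ x, ‖fderiv ℝ h x‖ ≤ |C| * κ := by
    intro x
    have h1 : LipschitzWith (Real.toNNReal (|C| * κ)) h := by
      refine LipschitzWith.of_dist_le_mul fun y z => ?_
      rw [Real.dist_eq, dist_eq_norm, Real.coe_toNNReal _ (by positivity)]
      refine (hhl y z).trans (mul_le_mul_of_nonneg_right ?_ (norm_nonneg _))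
      exact mul_le_mul_of_nonneg_right (le_abs_self C) hκ
    have h2 := norm_fderiv_le_of_lipschitz ℝ h1 (x₀ := x)
    rwa [Real.coe_toNNReal _ (by positivity)] at h2
  refine ⟨fun x => ξ x + h x, (ξ.contDiff.add hh).contDiffOn, fun x _ => ?_, fun x _ => ?_⟩
  · rw [add_sub_add_left_eq_sub]
    exact hhH x
  · have h1 : HasFDerivAt (fun x => ξ x + h x) (ξ + fderiv ℝ h x) x :=
      ξ.hasFDerivAt.add (hh.differentiable one_ne_zero x).hasFDerivAt
    rw [h1.fderiv]
    exact (hξ.add (PB.of_norm ha hab (hhd x))).mono hN (by linarith)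

end Pool.Agent.MP_85fd23_an.B
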