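import Pool.Agent.Lib.MP_85fd23_an_B.Base

/-!
# MP_85fd23_an, project B: gluing of a sequence of approximants
-/

set_option autoImplicit false

open Filter Metric Set
open scoped Topology

namespace Pool.Agent.MP_85fd23_an.B

variable {X : Type*} [NormedAddCommGroup X] [NormedSpace ℝ X]

/-- The remaining weights. -/
noncomputable def qs (ψ : ℕ → X → ℝ) : ℕ → X → ℝ
  | 0 => fun _ => 1
  | n + 1 => fun x => qs ψ n x - qs ψ n x * ψ n x

/-- The partial sums. -/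
noncomputable def Ss (ψ g : ℕ → X → ℝ) : ℕ → X → ℝ
  | 0 => fun _ => 0
  | n + 1 => fun x => Ss ψ g n x + qs ψ n x * ψ n x * g n x

theorem qs_contDiff {ψ : ℕ → X → ℝ} (hψ : ∀ n, ContDiff ℝ 1 (ψ n)) (n : ℕ) :
    ContDiff ℝ 1 (qs ψ n) := by
  induction n with
  | zero => exact contDiff_const
  | succ n ih => exact ih.sub (ih.mul (hψ n))

theorem qs_mem {ψ : ℕ → X → ℝ} (h01 : ∀ n x, 0 ≤ ψ n x ∧ ψ n x ≤ 1) (n : ℕ) (x : X) :
    0 ≤ qs ψ n x ∧ qs ψ n x ≤ 1 := by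
  induction n with
  | zero => exact ⟨zero_le_one, le_rfl⟩
  | succ n ih =>
    have h1 := h01 n x
    have h2 : qs ψ (n + 1) x = qs ψ n x * (1 - ψ n x) := by
      change qs ψ n x - qs ψ n x * ψ n x = _
      ring
    rw [h2]
    exact ⟨mul_nonneg ih.1 (by linarith), mul_le_one₀ ih.2 (by linarith) (by linarith)⟩

theorem w_fderiv {ψ : ℕ → X → ℝ} (hψ : ∀ n, ContDiff ℝ 1 (ψ n)) (n : ℕ) (x : X) :
    HasFDerivAt (fun y => qs ψ n y * ψ n y)
      (qs ψ n x • fderiv ℝ (ψ n) x + ψ n x • fderiv ℝ (qs ψ n) x) x :=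
  ((qs_contDiff hψ n).differentiable one_ne_zero x).hasFDerivAt.mul
    ((hψ n).differentiable one_ne_zero x).hasFDerivAt

theorem qs_fderiv_norm {ψ : ℕ → X → ℝ} (hψ : ∀ n, ContDiff ℝ 1 (ψ n))
    (h01 : ∀ n x, 0 ≤ ψ n x ∧ ψ n x ≤ 1) {D : ℕ → ℝ} (hD : ∀ n x, ‖fderiv ℝ (ψ n) x‖ ≤ D n)
    (n : ℕ) (x : X) : ‖fderiv ℝ (qs ψ n) x‖ ≤ ∑ i ∈ Finset.range n, D i ∧
      ‖qs ψ n x • fderiv ℝ (ψ n) x + ψ n x • fderiv ℝ (qs ψ n) x‖ ≤
        ∑ i ∈ Finset.range (n + 1), D i := by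
  have step : ∀ n, ‖fderiv ℝ (qs ψ n) x‖ ≤ ∑ i ∈ Finset.range n, D i →
      ‖qs ψ n x • fderiv ℝ (ψ n) x + ψ n x • fderiv ℝ (qs ψ n) x‖ ≤
        ∑ i ∈ Finset.range (n + 1), D i := by
    intro n h
    have h1 := h01 n x
    have h2 := qs_mem h01 n x
    rw [Finset.sum_range_succ]
    refine (norm_add_le _ _).trans ?_
    rw [norm_smul, norm_smul, Real.norm_of_nonneg h1.1, Real.norm_of_nonneg h2.1]
    have h3 : qs ψ n x * ‖fderiv ℝ (ψ n) x‖ ≤ ‖fderiv ℝ (ψ n) x‖ :=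
      mul_le_of_le_one_left (norm_nonneg _) h2.2
    have h4 : ψ n x * ‖fderiv ℝ (qs ψ n) x‖ ≤ ‖fderiv ℝ (qs ψ n) x‖ :=
      mul_le_of_le_one_left (norm_nonneg _) h1.2
    have h5 := hD n x
    linarith
  have main : ∀ n, ‖fderiv ℝ (qs ψ n) x‖ ≤ ∑ i ∈ Finset.range n, D i := by
    intro n
    induction n with
    | zero =>
      have h1 : fderiv ℝ (qs ψ 0) x = 0 := by
        change fderiv ℝ (fun _ : X => (1 : ℝ)) x = 0
        simp
      rw [h1]
      simp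
    | succ n ih =>
      have h1 := (((qs_contDiff hψ n).differentiable one_ne_zero x).hasFDerivAt.sub
        (w_fderiv hψ n x)).fderiv
      have h2 : fderiv ℝ (qs ψ (n + 1)) x = (1 - ψ n x) • fderiv ℝ (qs ψ n) x -
          qs ψ n x • fderiv ℝ (ψ n) x := by
        change fderiv ℝ (fun y => qs ψ n y - qs ψ n y * ψ n y) x = _
        refine h1.trans ?_
        module
      have h3 := h01 n x
      have h4 := qs_mem h01 n x
      rw [h2, Finset.sum_range_succ]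
      refine (norm_sub_le _ _).trans ?_
      rw [norm_smul, norm_smul, Real.norm_of_nonneg (by linarith : 0 ≤ 1 - ψ n x),
        Real.norm_of_nonneg h4.1]
      have h5 : qs ψ n x * ‖fderiv ℝ (ψ n) x‖ ≤ ‖fderiv ℝ (ψ n) x‖ :=
        mul_le_of_le_one_left (norm_nonneg _) h4.2
      have h6 : (1 - ψ n x) * ‖fderiv ℝ (qs ψ n) x‖ ≤ ‖fderiv ℝ (qs ψ n) x‖ :=
        mul_le_of_le_one_left (norm_nonneg _) (by linarith)
      have h7 := hD n x
      linarith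
  exact ⟨main n, step n (main n)⟩

/-- The partial sums are constant after an index with weight one. -/
theorem Ss_stab {ψ : ℕ → X → ℝ} (g : ℕ → X → ℝ) {n : ℕ} {y : X} (h : ψ n y = 1) (k : ℕ) :
    qs ψ (n + 1 + k) y = 0 ∧ Ss ψ g (n + 1 + k) y = Ss ψ g (n + 1) y := by
  induction k with
  | zero =>
    refine ⟨?_, rfl⟩
    change qs ψ n y - qs ψ n y * ψ n y = 0
    rw [h]
    ring
  | succ k ih =>
    constructor
    · change qs ψ (n + 1 + k) y - qs ψ (n + 1 + k) y * ψ (n + 1 + k) y = 0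
      rw [ih.1]
      ring
    · change Ss ψ g (n + 1 + k) y + qs ψ (n + 1 + k) y * ψ (n + 1 + k) y * g (n + 1 + k) y = _
      rw [ih.1, ih.2]
      ring

/-- The invariant of the partial sums. -/
theorem Ss_inv {N F : X → ℝ} (hN : EquivNorm N) {a : ℝ} (ha : 0 < a) (hab : ∀ x, a * ‖x‖ ≤ N x)
    {s ε : ℝ} {ψ g : ℕ → X → ℝ} {e D : ℕ → ℝ}
    (hψ : ∀ n, ContDiff ℝ 1 (ψ n)) (h01 : ∀ n x, 0 ≤ ψ n x ∧ ψ n x ≤ 1)
    (hD : ∀ n x, ‖fderiv ℝ (ψ n) x‖ ≤ D n) {x : X}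
    (hg : ∀ n, ψ n =ᶠ[𝓝 x] (fun _ => 0) ∨
      (ContDiffAt ℝ 1 (g n) x ∧ |g n x - F x| ≤ e n ∧ PB N s (fderiv ℝ (g n) x)))
    (he : ∀ n, 0 ≤ e n ∧ e n ≤ ε) (k : ℕ) :
    ContDiffAt ℝ 1 (Ss ψ g k) x ∧
      |Ss ψ g k x + qs ψ k x * F x - F x| ≤ ε * (1 - qs ψ k x) ∧
      PB N (s * (1 - qs ψ k x) + (∑ j ∈ Finset.range k, e j * ∑ i ∈ Finset.range (j + 1), D i) / a)
        (fderiv ℝ (Ss ψ g k) x + F x • fderiv ℝ (qs ψ k) x) := by
  induction k with
  | zero =>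
    refine ⟨contDiffAt_const, ?_, ?_⟩
    · change |0 + 1 * F x - F x| ≤ ε * (1 - 1)
      simp
    · have h1 : fderiv ℝ (Ss ψ g 0) x + F x • fderiv ℝ (qs ψ 0) x = 0 := by
        change fderiv ℝ (fun _ : X => (0 : ℝ)) x + F x • fderiv ℝ (fun _ : X => (1 : ℝ)) x = 0
        simp
      have h2 : s * (1 - qs ψ 0 x) + (∑ j ∈ Finset.range 0,
          e j * ∑ i ∈ Finset.range (j + 1), D i) / a = 0 := by
        change s * (1 - 1) + _ = 0
        simp
      rw [h1, h2]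
      exact PB.zero N
  | succ k ih =>
    obtain ⟨ih1, ih2, ih3⟩ := ih
    have hD0 : ∀ n, 0 ≤ D n := fun n => (norm_nonneg _).trans (hD n x)
    have hSnn : 0 ≤ e k * ∑ i ∈ Finset.range (k + 1), D i :=
      mul_nonneg (he k).1 (Finset.sum_nonneg fun i _ => hD0 i)
    rcases hg k with h | ⟨h1, h2, h3⟩
    · have hx : ψ k x = 0 := h.self_of_nhds
      have eq1 : Ss ψ g (k + 1) =ᶠ[𝓝 x] Ss ψ g k := by
        filter_upwards [h] with y hy
        change Ss ψ g k y + qs ψ k y * ψ k y * g k y = _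
        rw [hy]
        ring
      have eq2 : qs ψ (k + 1) =ᶠ[𝓝 x] qs ψ k := by
        filter_upwards [h] with y hy
        change qs ψ k y - qs ψ k y * ψ k y = _
        rw [hy]
        ring
      refine ⟨ih1.congr_of_eventuallyEq eq1, ?_, ?_⟩
      · rw [eq1.self_of_nhds, eq2.self_of_nhds]
        exact ih2
      · rw [eq1.fderiv_eq, eq2.fderiv_eq, eq2.self_of_nhds, Finset.sum_range_succ]
        refine ih3.mono hN ?_
        rw [add_div]
        have : 0 ≤ (e k * ∑ i ∈ Finset.range (k + 1), D i) / a := div_nonneg hSnn ha.le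
        linarith
    · have hw := w_fderiv hψ k x
      have hq := ((qs_contDiff hψ k).differentiable one_ne_zero x).hasFDerivAt
      have hqm := qs_mem h01 k x
      have hψm := h01 k x
      have hw0 : 0 ≤ qs ψ k x * ψ k x := mul_nonneg hqm.1 hψm.1
      have hwC : ContDiff ℝ 1 fun y => qs ψ k y * ψ k y := (qs_contDiff hψ k).mul (hψ k)
      refine ⟨ih1.add (hwC.contDiffAt.mul h1), ?_, ?_⟩
      · change |Ss ψ g k x + qs ψ k x * ψ k x * g k x + (qs ψ k x - qs ψ k x * ψ k x) * F x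
          - F x| ≤ ε * (1 - (qs ψ k x - qs ψ k x * ψ k x))
        have e1 : Ss ψ g k x + qs ψ k x * ψ k x * g k x + (qs ψ k x - qs ψ k x * ψ k x) * F x
          - F x = (Ss ψ g k x + qs ψ k x * F x - F x) + qs ψ k x * ψ k x * (g k x - F x) := by
          ring
        have e2 : ε * (1 - (qs ψ k x - qs ψ k x * ψ k x)) =
          ε * (1 - qs ψ k x) + qs ψ k x * ψ k x * ε := by ring
        rw [e1, e2]
        refine (abs_add_le _ _).trans (add_le_add ih2 ?_)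
        rw [abs_mul, abs_of_nonneg hw0]
        exact mul_le_mul_of_nonneg_left (h2.trans (he k).2) hw0
      · obtain ⟨ω, hω⟩ : ∃ ω : X →L[ℝ] ℝ,
            ω = qs ψ k x • fderiv ℝ (ψ k) x + ψ k x • fderiv ℝ (qs ψ k) x := ⟨_, rfl⟩
        have hω2 : ‖ω‖ ≤ ∑ i ∈ Finset.range (k + 1), D i := by
          rw [hω]
          exact (qs_fderiv_norm hψ h01 hD k x).2
        rw [← hω] at hw
        have d1 : fderiv ℝ (Ss ψ g (k + 1)) x = fderiv ℝ (Ss ψ g k) x +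
            ((qs ψ k x * ψ k x) • fderiv ℝ (g k) x + g k x • ω) := by
          have h4 := (ih1.differentiableAt one_ne_zero).hasFDerivAt
          have h5 := (h1.differentiableAt one_ne_zero).hasFDerivAt
          exact (h4.add (hw.mul h5)).fderiv
        have d2 : fderiv ℝ (qs ψ (k + 1)) x = fderiv ℝ (qs ψ k) x - ω := (hq.sub hw).fderiv
        have d3 : fderiv ℝ (Ss ψ g (k + 1)) x + F x • fderiv ℝ (qs ψ (k + 1)) x =
            (fderiv ℝ (Ss ψ g k) x + F x • fderiv ℝ (qs ψ k) x) +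
            ((qs ψ k x * ψ k x) • fderiv ℝ (g k) x + (g k x - F x) • ω) := by
          rw [d1, d2]
          module
        have p1 := h3.smul hw0
        have p2 : PB N ((e k * ∑ i ∈ Finset.range (k + 1), D i) / a) ((g k x - F x) • ω) := by
          refine PB.of_norm ha hab ?_
          rw [norm_smul, Real.norm_eq_abs]
          exact mul_le_mul h2 hω2 (norm_nonneg _) (he k).1
        have p3 := ih3.add (p1.add p2)
        rw [d3]
        refine p3.mono hN (le_of_eq ?_)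
        rw [Finset.sum_range_succ (fun j => e j * ∑ i ∈ Finset.range (j + 1), D i) k, add_div]
        change _ = s * (1 - (qs ψ k x - qs ψ k x * ψ k x)) + _
        ring

/-- Gluing of a sequence. -/
theorem glue_seq {N F : X → ℝ} (hN : EquivNorm N) {a : ℝ} (ha : 0 < a)
    (hab : ∀ x, a * ‖x‖ ≤ N x) {s t ε : ℝ} {W : Set X} {ψ g : ℕ → X → ℝ} {e D : ℕ → ℝ}
    (hψ : ∀ n, ContDiff ℝ 1 (ψ n)) (h01 : ∀ n x, 0 ≤ ψ n x ∧ ψ n x ≤ 1)
    (hD : ∀ n x, ‖fderiv ℝ (ψ n) x‖ ≤ D n)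
    (hg : ∀ x ∈ W, ∀ n, ψ n =ᶠ[𝓝 x] (fun _ => 0) ∨
      (ContDiffAt ℝ 1 (g n) x ∧ |g n x - F x| ≤ e n ∧ PB N s (fderiv ℝ (g n) x)))
    (hcov : ∀ x ∈ W, ∃ n, ψ n =ᶠ[𝓝 x] fun _ => 1)
    (he : ∀ n, 0 ≤ e n ∧ e n ≤ ε)
    (hsum : ∀ k, ∑ j ∈ Finset.range k, e j * ∑ i ∈ Finset.range (j + 1), D i ≤ a * t) :
    ∃ G : X → ℝ, ∀ x ∈ W, ContDiffAt ℝ 1 G x ∧ |G x - F x| ≤ ε ∧
      PB N (s + t) (fderiv ℝ G x) := by
  have hex : ∀ y : X, ∃ v : ℝ, ∀ n, ψ n y = 1 → Ss ψ g (n + 1) y = v := by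
    intro y
    by_cases h : ∃ n, ψ n y = 1
    · obtain ⟨n, hn⟩ := h
      refine ⟨Ss ψ g (n + 1) y, fun m hm => ?_⟩
      have h1 := (Ss_stab g hn m).2
      have h2 := (Ss_stab g hm n).2
      have h3 : n + 1 + m = m + 1 + n := by omega
      rw [← h1, ← h2, h3]
    · exact ⟨0, fun n hn => absurd ⟨n, hn⟩ h⟩
  choose G hG using hex
  refine ⟨G, fun x hx => ?_⟩
  obtain ⟨n, hn⟩ := hcov x hx
  have eq1 : G =ᶠ[𝓝 x] Ss ψ g (n + 1) := by
    filter_upwards [hn] with y hy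
    exact (hG y n hy).symm
  have eq2 : qs ψ (n + 1) =ᶠ[𝓝 x] fun _ => 0 := by
    filter_upwards [hn] with y hy
    exact (Ss_stab g hy 0).1
  obtain ⟨h1, h2, h3⟩ := Ss_inv hN ha hab hψ h01 hD (hg x hx) he (n + 1)
  have h4 : qs ψ (n + 1) x = 0 := eq2.self_of_nhds
  have h5 : fderiv ℝ (qs ψ (n + 1)) x = 0 := by
    rw [eq2.fderiv_eq]
    simp
  refine ⟨h1.congr_of_eventuallyEq eq1, ?_, ?_⟩
  · rw [eq1.self_of_nhds]
    rw [h4] at h2
    simpa using h2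
  · rw [eq1.fderiv_eq]
    rw [h4, h5, smul_zero, add_zero, sub_zero, mul_one] at h3
    refine h3.mono hN ?_
    have h6 : (∑ j ∈ Finset.range (n + 1), e j * ∑ i ∈ Finset.range (j + 1), D i) / a ≤ t := by
      rw [div_le_iff₀ ha, mul_comm t a]
      exact hsum (n + 1)
    linarith

end Pool.Agent.MP_85fd23_an.B
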