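import Pool.Agent.Lib.MP_85fd23_an_B.Cut
import Pool.Agent.Lib.MP_85fd23_an_B.Seq

/-!
# MP_85fd23_an, project B: the union of all good sets is good
-/

set_option autoImplicit false

open Filter Metric Set
open scoped Topology

namespace Pool.Agent.MP_85fd23_an.B

variable {X : Type*} [NormedAddCommGroup X] [NormedSpace ℝ X]

/-- The union of all good sets is good. -/
theorem good_sUnion {C : ℝ} (hS : StarOne (fun x : X => ‖x‖) C) {N F : X → ℝ}
    (hN : EquivNorm N) {a : ℝ} (ha : 0 < a) (hab : ∀ x, a * ‖x‖ ≤ N x) (s : ℝ) :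
    Good N F s (⋃₀ {V | Good N F s V}) := by
  obtain ⟨W, hW⟩ : ∃ W : Set X, W = ⋃₀ {V | Good N F s V} := ⟨_, rfl⟩
  rw [← hW]
  refine ⟨by rw [hW]; exact isOpen_sUnion fun V hV => hV.1, fun ε hε η hη => ?_⟩
  obtain ⟨K, hK, hcut⟩ := exists_cut hS
  have hidx : ∀ x ∈ W, ∃ V, Good N F s V ∧ x ∈ V ∧
      ∀ V', Good N F s V' → x ∈ V' → ¬ WellOrderingRel V' V := by
    intro x hx
    rw [hW] at hx
    obtain ⟨V₀, hV₀, hxV₀⟩ := hx
    obtain ⟨V, ⟨hV1, hV2⟩, hV3⟩ := (WellOrderingRel.isWellOrder (α := Set X)).wf.has_min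
      {V | Good N F s V ∧ x ∈ V} ⟨V₀, hV₀, hxV₀⟩
    exact ⟨V, hV1, hV2, fun V' h1 h2 => hV3 V' ⟨h1, h2⟩⟩
  choose! idx hidxG hidxm hidxl using hidx
  obtain ⟨δ, hδ⟩ : ∃ δ : ℕ → ℝ, δ = fun n => (1 / 2 : ℝ) ^ n := ⟨_, rfl⟩
  have hδ0 : ∀ n, 0 < δ n := fun n => by rw [hδ]; positivity
  obtain ⟨E, hE⟩ : ∃ E : ℕ → Set X, E = fun n => {x | x ∈ W ∧ ball x (2 * δ n) ⊆ idx x} :=
    ⟨_, rfl⟩
  have hE1 : ∀ n, ∀ x ∈ E n, x ∈ W ∧ ball x (2 * δ n) ⊆ idx x := fun n x hx => by
    rw [hE] at hx; exact hx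
  have hsep : ∀ n, ∀ x ∈ E n, ∀ x' ∈ E n, dist x x' < 2 * δ n → idx x = idx x' := by
    intro n x hx x' hx' hd
    obtain ⟨h1, h2⟩ := hE1 n x hx
    obtain ⟨h1', h2'⟩ := hE1 n x' hx'
    have h3 : x' ∈ idx x := h2 (by rw [mem_ball, dist_comm]; exact hd)
    have h3' : x ∈ idx x' := h2' (by rw [mem_ball]; exact hd)
    have h4 := hidxl x h1 (idx x') (hidxG x' h1') h3'
    have h4' := hidxl x' h1' (idx x) (hidxG x h1) h3
    rcases trichotomous_of WellOrderingRel (idx x) (idx x') with h | h | h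
    · exact absurd h h4'
    · exact h
    · exact absurd h h4
  obtain ⟨m, hm⟩ : ∃ m : ℝ, m = min ε (a * η / (8 * K)) := ⟨_, rfl⟩
  have hm0 : 0 < m := by rw [hm]; exact lt_min hε (by positivity)
  have hγ : ∀ n : ℕ, ∀ V, Good N F s V → ∃ g : X → ℝ, ContDiffOn ℝ 1 g V ∧
      (∀ x ∈ V, |g x - F x| ≤ m * (1 / 4 : ℝ) ^ n) ∧ ∀ x ∈ V, PB N (s + η / 2) (fderiv ℝ g x) :=
    fun n V hV => hV.2 _ (by positivity) _ (half_pos hη)
  choose! γ hγ1 hγ2 hγ3 using hγ
  have hgex : ∀ n : ℕ, ∀ y : X, ∃ v : ℝ, ∀ x ∈ E n, dist y x < δ n → v = γ n (idx x) y := by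
    intro n y
    by_cases h : ∃ x ∈ E n, dist y x < δ n
    · obtain ⟨x, hx, hd⟩ := h
      refine ⟨γ n (idx x) y, fun x' hx' hd' => ?_⟩
      rw [hsep n x hx x' hx' ?_]
      have h1 := dist_triangle_left x x' y
      linarith
    · exact ⟨0, fun x hx hd => absurd ⟨x, hx, hd⟩ h⟩
  choose g hg using hgex
  have hψex : ∀ n : ℕ, ∃ ψ : X → ℝ, ContDiff ℝ 1 ψ ∧ (∀ x, 0 ≤ ψ x ∧ ψ x ≤ 1) ∧
      (∀ x, ‖fderiv ℝ ψ x‖ ≤ K / δ n) ∧ (∀ x ∈ E n, ψ =ᶠ[𝓝 x] fun _ => 1) ∧
      ∀ x, (∀ x' ∈ E n, δ n ≤ dist x x') → ψ =ᶠ[𝓝 x] fun _ => 0 := by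
    intro n
    rcases (E n).eq_empty_or_nonempty with h | h
    · refine ⟨fun _ => 0, contDiff_const, fun x => ⟨le_rfl, zero_le_one⟩, fun x => ?_,
        fun x hx => ?_, fun x _ => EventuallyEq.rfl⟩
      · have := hδ0 n
        rw [fderiv_fun_const, Pi.zero_apply, norm_zero]
        positivity
      · rw [h] at hx
        exact absurd hx (notMem_empty x)
    · obtain ⟨ψ, h1, h2, h3, h4, h5⟩ := hcut (E n) (δ n) (hδ0 n)
      refine ⟨ψ, h1, h2, h3, fun x hx => h4 x ?_, fun x hx => h5 x ?_⟩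
      · rw [infDist_zero_of_mem hx]
        have := hδ0 n
        positivity
      · have h6 : δ n ≤ infDist x (E n) := (le_infDist h).2 fun y hy => hx y hy
        have := hδ0 n
        linarith
  choose ψ hψ1 hψ2 hψ3 hψ4 hψ5 using hψex
  obtain ⟨G, hG⟩ := glue_seq (F := F) hN ha hab (s := s + η / 2) (t := η / 2) (ε := ε) (W := W)
    (ψ := ψ) (g := g) (e := fun n => m * (1 / 4 : ℝ) ^ n) (D := fun n => K / δ n) hψ1 hψ2 hψ3
    (fun x hx n => by
      by_cases h : ∃ x' ∈ E n, dist x x' < δ n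
      · right
        obtain ⟨x', hx', hd⟩ := h
        obtain ⟨h1, h2⟩ := hE1 n x' hx'
        have hGood := hidxG x' h1
        have hxV : x ∈ idx x' := h2 (by
          rw [mem_ball]
          have := hδ0 n
          linarith)
        have hVn : idx x' ∈ 𝓝 x := hGood.1.mem_nhds hxV
        have eq1 : g n =ᶠ[𝓝 x] γ n (idx x') := by
          have h3 : ball x' (δ n) ∈ 𝓝 x := isOpen_ball.mem_nhds (by rw [mem_ball]; exact hd)
          filter_upwards [h3] with y hy
          exact hg n y x' hx' (by rw [mem_ball] at hy; exact hy)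
        refine ⟨((hγ1 n _ hGood).contDiffAt hVn).congr_of_eventuallyEq eq1, ?_, ?_⟩
        · rw [eq1.self_of_nhds]
          exact hγ2 n _ hGood x hxV
        · rw [eq1.fderiv_eq]
          exact hγ3 n _ hGood x hxV
      · left
        push Not at h
        exact hψ5 n x h)
    (fun x hx => by
      obtain ⟨ρ, hρ, hball⟩ := Metric.isOpen_iff.1 (hidxG x hx).1 x (hidxm x hx)
      obtain ⟨n, hn⟩ := exists_pow_lt_of_lt_one (half_pos hρ) (by norm_num : (1 / 2 : ℝ) < 1)
      refine ⟨n, hψ4 n x ?_⟩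
      rw [hE]
      refine ⟨hx, (ball_subset_ball ?_).trans hball⟩
      rw [hδ]
      change 2 * (1 / 2 : ℝ) ^ n ≤ ρ
      linarith)
    (fun n => by
      refine ⟨by positivity, ?_⟩
      have h1 : (1 / 4 : ℝ) ^ n ≤ 1 := pow_le_one₀ (by norm_num) (by norm_num)
      have h2 : m ≤ ε := by rw [hm]; exact min_le_left _ _
      calc m * (1 / 4 : ℝ) ^ n ≤ m * 1 := mul_le_mul_of_nonneg_left h1 hm0.le
        _ ≤ ε := by rw [mul_one]; exact h2)
    (fun k => by
      have hDs : ∀ j : ℕ, ∑ i ∈ Finset.range (j + 1), K / δ i ≤ K * 2 * 2 ^ j := by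
        intro j
        have h1 : ∀ i, K / δ i = K * 2 ^ i := fun i => by
          rw [hδ]
          simp
        simp only [h1]
        rw [← Finset.mul_sum, mul_assoc]
        refine mul_le_mul_of_nonneg_left ?_ hK.le
        induction j with
        | zero => norm_num
        | succ j ih =>
          rw [Finset.sum_range_succ, pow_succ]
          linarith
      have hterm : ∀ j : ℕ, m * (1 / 4 : ℝ) ^ j * ∑ i ∈ Finset.range (j + 1), K / δ i ≤
          a * η / 4 * (1 / 2 : ℝ) ^ j := by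
        intro j
        have h1 : m ≤ a * η / (8 * K) := by rw [hm]; exact min_le_right _ _
        calc m * (1 / 4 : ℝ) ^ j * ∑ i ∈ Finset.range (j + 1), K / δ i
            ≤ a * η / (8 * K) * (1 / 4 : ℝ) ^ j * (K * 2 * 2 ^ j) := by
              refine mul_le_mul (mul_le_mul_of_nonneg_right h1 (by positivity)) (hDs j) ?_
                (by positivity)
              exact Finset.sum_nonneg fun i _ => by have := hδ0 i; positivity
          _ = a * η / 4 * ((1 / 4 : ℝ) ^ j * 2 ^ j) := by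
              field_simp
              ring
          _ = a * η / 4 * (1 / 2 : ℝ) ^ j := by
              rw [← mul_pow]
              norm_num
      refine (Finset.sum_le_sum fun j _ => hterm j).trans ?_
      rw [← Finset.mul_sum]
      have h2 : ∑ j ∈ Finset.range k, (1 / 2 : ℝ) ^ j ≤ 2 := by
        have h3 : ∀ k : ℕ, ∑ j ∈ Finset.range k, (1 / 2 : ℝ) ^ j = 2 - 2 * (1 / 2 : ℝ) ^ k := by
          intro k
          induction k with
          | zero => norm_num
          | succ k ih =>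
            rw [Finset.sum_range_succ, ih, pow_succ]
            ring
        rw [h3]
        have : (0 : ℝ) < (1 / 2 : ℝ) ^ k := by positivity
        linarith
      have h4 : 0 ≤ a * η / 4 := by positivity
      have h5 := mul_le_mul_of_nonneg_left h2 h4
      linarith)
  refine ⟨G, fun x hx => (hG x hx).1.contDiffWithinAt, fun x hx => (hG x hx).2.1,
    fun x hx => ?_⟩
  have h1 := (hG x hx).2.2
  rwa [add_assoc, add_halves] at h1

end Pool.Agent.MP_85fd23_an.B
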