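import Pool.Agent.Lib.MP_85fd23_an_B.PProp
import Pool.Agent.Lib.MP_85fd23_an_B.Union
import Pool.Agent.Lib.MP_85fd23_an_B.Patch

/-!
# MP_85fd23_an, project B: main theorems
-/

set_option autoImplicit false

open Filter Metric Set
open scoped Topology

namespace Pool.Agent.MP_85fd23_an.B

variable {X : Type*} [NormedAddCommGroup X] [NormedSpace ℝ X]

/-- The exhaustion principle: a function is good if on a portion of every nonempty closed set it
coincides with a function which is good near this portion. -/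
theorem good_univ {C : ℝ} (hS : StarOne (fun x : X => ‖x‖) C) {N F : X → ℝ}
    (hN : EquivNorm N) {a : ℝ} (ha : 0 < a) (hab : ∀ x, a * ‖x‖ ≤ N x) {s B : ℝ}
    (hB : 0 ≤ B) (hFB : ∀ x y, |F x - F y| ≤ B * ‖x - y‖)
    (h : ∀ Z : Set X, IsClosed Z → Z.Nonempty → ∃ x₀ ∈ Z, ∃ r > 0, ∃ F₁ : X → ℝ, ∃ B₁ : ℝ,
      0 ≤ B₁ ∧ (∀ x y, |F₁ x - F₁ y| ≤ B₁ * ‖x - y‖) ∧ Good N F₁ s (ball x₀ r) ∧
      ∀ x ∈ Z, ‖x - x₀‖ < r → F₁ x = F x) :
    Good N F s univ := by
  obtain ⟨U, hU⟩ : ∃ U : Set X, U = ⋃₀ {V | Good N F s V} := ⟨_, rfl⟩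
  have hUG : Good N F s U := by rw [hU]; exact good_sUnion hS hN ha hab s
  rcases (Uᶜ).eq_empty_or_nonempty with he | hne
  · rw [compl_empty_iff] at he
    rwa [← he]
  · obtain ⟨x₀, hx₀, r, hr, F₁, B₁, hB₁, hF₁B, hF₁G, heq⟩ := h Uᶜ hUG.1.isClosed_compl hne
    have hG := good_patch hS hN ha hab hUG (x₀ := x₀) hx₀ (B := B + B₁) (F₁ := F₁)
      (by positivity)
      (fun x y => (hFB x y).trans (mul_le_mul_of_nonneg_right (by linarith) (norm_nonneg _)))
      (fun x y => (hF₁B x y).trans (mul_le_mul_of_nonneg_right (by linarith) (norm_nonneg _)))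
      hr hF₁G (fun x hx hxr => heq x hx hxr)
    refine absurd ?_ hx₀
    rw [hU]
    exact ⟨ball x₀ r, hG, mem_ball_self hr⟩

/-- One-sided functions are good. -/
theorem good_sigma [CompleteSpace X] {C : ℝ} (hS : StarOne (fun x : X => ‖x‖) C) {N F : X → ℝ}
    (hN : EquivNorm N) {B : ℝ} (hB : 0 ≤ B) (hFB : ∀ x y, |F x - F y| ≤ B * ‖x - y‖) {L : ℝ}
    (hL : 0 ≤ L) (hF : SigmaOneSided N L F) {η : ℝ} (hη : 0 < η) :
    Good N F (L + η) univ := by
  obtain ⟨a, b, ha, hab⟩ := hN.equiv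
  have hFc : Continuous F := by
    have : LipschitzWith (Real.toNNReal B) F := by
      refine LipschitzWith.of_dist_le_mul fun x y => ?_
      rw [Real.dist_eq, dist_eq_norm, Real.coe_toNNReal B hB]
      exact hFB x y
    exact this.continuous
  refine good_univ hS hN ha (fun x => (hab x).1) hB hFB fun Z hZ hZn => ?_
  obtain ⟨κ, hκ⟩ : ∃ κ : ℝ, κ = η / (1 + 3 * |C| / a) := ⟨_, rfl⟩
  have hden : 0 < 1 + 3 * |C| / a := by positivity
  have hκ0 : 0 < κ := by rw [hκ]; positivity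
  obtain ⟨x₀, hx₀, ξ, r, hr, hPB, hlip⟩ := exists_affine hS hN (fun x => (hab x).2) hL hFc hF
    hZ hZn hκ0
  obtain ⟨H, hHl, hHe⟩ := LipschitzOnWith.extend_real (f := fun x => F x - ξ x)
    (s := {x | x ∈ Z ∧ ‖x - x₀‖ < r})
    (K := Real.toNNReal (3 * κ)) (LipschitzOnWith.of_dist_le_mul fun x hx y hy => by
      rw [Real.dist_eq, dist_eq_norm, Real.coe_toNNReal _ (by positivity)]
      exact hlip x hx.1 y hy.1 hx.2 hy.2)
  have hHl' : ∀ x y, |H x - H y| ≤ 3 * κ * ‖x - y‖ := fun x y => by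
    have := hHl.dist_le_mul x y
    rwa [Real.dist_eq, dist_eq_norm, Real.coe_toNNReal _ (by positivity)] at this
  refine ⟨x₀, hx₀, r, hr, fun x => ξ x + H x, ‖ξ‖ + 3 * κ, by positivity, fun x y => ?_,
    good_affine hS hN ha (fun x => (hab x).1) hPB (by positivity) hHl' ?_ isOpen_ball,
    fun x hx hxr => ?_⟩
  · have e1 : (ξ x + H x) - (ξ y + H y) = ξ (x - y) + (H x - H y) := by
      rw [map_sub]
      ring
    rw [e1, add_mul]
    exact (abs_add_le _ _).trans (add_le_add (ξ.le_opNorm _) (hHl' x y))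
  · have e1 : κ * (1 + 3 * |C| / a) = η := by
      rw [hκ]
      field_simp
    have e2 : L + κ + |C| * (3 * κ) / a = L + κ * (1 + 3 * |C| / a) := by ring
    rw [e2, e1]
  · have h2 := hHe ⟨hx, hxr⟩
    simp only at h2
    change ξ x + H x = F x
    rw [← h2]
    ring

/-- Approximation of one-sided functions, with the constant one. -/
theorem approx_sigma [CompleteSpace X] {C : ℝ} (hS : StarOne (fun x : X => ‖x‖) C) {N F : X → ℝ}
    (hN : EquivNorm N) {B : ℝ} (hB : 0 ≤ B) (hFB : ∀ x y, |F x - F y| ≤ B * ‖x - y‖) {L : ℝ}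
    (hL : 0 ≤ L) (hF : SigmaOneSided N L F) {ε η : ℝ} (hε : 0 < ε) (hη : 0 < η) :
    ∃ g : X → ℝ, ContDiff ℝ 1 g ∧ (∀ x, |g x - F x| ≤ ε) ∧ NLip N (L + η) g := by
  obtain ⟨g, h1, h2, h3⟩ := (good_sigma hS hN hB hFB hL hF (half_pos hη)).2 ε hε (η / 2)
    (half_pos hη)
  rw [contDiffOn_univ] at h1
  refine ⟨g, h1, fun x => h2 x (mem_univ x), nlip_of_pb hN h1 fun x => ?_⟩
  have h4 := h3 x (mem_univ x)
  rwa [add_assoc, add_halves] at h4

/-- One-sided functions which are `L`-Lipschitz for `N`. -/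
theorem sigma_of_oneSided {N F : X → ℝ} (hN : EquivNorm N) {L : ℝ} (hF : NLip N L F)
    (h : OneSided F) : SigmaOneSided N L F := by
  intro κ hκ
  obtain ⟨a, b, ha, hab⟩ := hN.equiv
  refine ⟨fun _ => univ, fun x => ⟨0, mem_univ x⟩, fun _ x _ => ?_⟩
  obtain ⟨κ', hκ'⟩ : ∃ κ' : ℝ, κ' = min κ (κ * a) := ⟨_, rfl⟩
  have h0 : 0 < κ' := by rw [hκ']; exact lt_min hκ (by positivity)
  have hle : κ' ≤ κ := by rw [hκ']; exact min_le_left _ _
  have hle' : κ' ≤ κ * a := by rw [hκ']; exact min_le_right _ _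
  obtain ⟨ξ, hξ⟩ := h x κ' h0
  have hb : ∀ v : X, κ' * ‖v‖ ≤ κ * N v := by
    intro v
    have h1 := mul_le_mul_of_nonneg_right hle' (norm_nonneg v)
    have h2 := mul_le_mul_of_nonneg_left (hab v).1 hκ.le
    linarith
  have hmono : ∀ z : X, κ' * ‖z - x‖ ≤ κ * ‖z - x‖ := fun z =>
    mul_le_mul_of_nonneg_right hle (norm_nonneg _)
  refine ⟨ξ, fun v => ?_, ?_⟩
  · rw [add_mul]
    rcases hξ with h1 | h1
    · have h2 := bound_of_sub hN hF h1 v
      have h3 := hb v
      linarith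
    · have hF' : NLip N L (fun x => -F x) := fun x y => by
        have := hF y x
        rw [hN.symm_sub] at this
        have e1 : -F x - -F y = F y - F x := by ring
        change |-F x - -F y| ≤ L * N (x - y)
        rw [e1]
        exact this
      have h2 := bound_of_sub (κ := κ') (ξ := -ξ) hN hF' (x := x) (by
        filter_upwards [h1] with z hz
        rw [neg_apply]
        linarith) (-v)
      rw [neg_apply, map_neg, neg_neg, hN.neg, norm_neg] at h2
      have h3 := hb v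
      linarith
  · rw [nhdsWithin_univ]
    rcases hξ with h1 | h1
    · left
      filter_upwards [h1] with z hz
      have := hmono z
      linarith
    · right
      filter_upwards [h1] with z hz
      have := hmono z
      linarith

/-- Countable selections. -/
theorem sigma_of_selection {N F : X → ℝ} {L : ℝ} (f : ℕ → X → ℝ)
    (hf : ∀ n, SigmaOneSided N L (f n)) (hsel : ∀ x, ∃ n, F x = f n x) :
    SigmaOneSided N L F := by
  intro κ hκ
  choose A hA1 hA2 using fun n => hf n κ hκ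
  refine ⟨fun k => {x | x ∈ A k.unpair.1 k.unpair.2 ∧ F x = f k.unpair.1 x}, fun x => ?_,
    fun k x hx => ?_⟩
  · obtain ⟨n, hn⟩ := hsel x
    obtain ⟨m, hm⟩ := hA1 n x
    refine ⟨Nat.pair n m, ?_⟩
    change x ∈ A (Nat.pair n m).unpair.1 (Nat.pair n m).unpair.2 ∧
      F x = f (Nat.pair n m).unpair.1 x
    rw [Nat.unpair_pair]
    exact ⟨hm, hn⟩
  · obtain ⟨ξ, hξ, h1⟩ := hA2 k.unpair.1 k.unpair.2 x hx.1
    have hsub : {x | x ∈ A k.unpair.1 k.unpair.2 ∧ F x = f k.unpair.1 x} ⊆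
        A k.unpair.1 k.unpair.2 := fun y hy => hy.1
    refine ⟨ξ, hξ, ?_⟩
    rcases h1 with h1 | h1
    · left
      filter_upwards [nhdsWithin_mono x hsub h1, self_mem_nhdsWithin] with z hz hz'
      rw [hx.2, hz'.2]
      exact hz
    · right
      filter_upwards [nhdsWithin_mono x hsub h1, self_mem_nhdsWithin] with z hz hz'
      rw [hx.2, hz'.2]
      exact hz

end Pool.Agent.MP_85fd23_an.B
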