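import Pool.Agent.Lib.MP_85fd23_an_B.Portion

/-!
# MP_85fd23_an, project B: one-sided functions are nearly affine on a portion of every closed set
-/

set_option autoImplicit false

open Filter Metric Set
open scoped Topology

namespace Pool.Agent.MP_85fd23_an.B

variable {X : Type*} [NormedAddCommGroup X] [NormedSpace ℝ X]

/-- `F` is one-sided on the pieces of countable covers, with slopes (for `N`) at most `L`: for
every `κ > 0` the space is the union of countably many sets such that, relatively to each of them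
and at each of its points, `F` is sub- or superdifferentiable up to `κ`, with a functional bounded
by `(L + κ) N`. -/
def SigmaOneSided (N : X → ℝ) (L : ℝ) (F : X → ℝ) : Prop :=
  ∀ κ > 0, ∃ A : ℕ → Set X, (∀ x, ∃ n, x ∈ A n) ∧ ∀ n, ∀ x ∈ A n, ∃ ξ : X →L[ℝ] ℝ,
    PB N (L + κ) ξ ∧
    ((∀ᶠ z in 𝓝[A n] x, F x + ξ (z - x) - κ * ‖z - x‖ ≤ F z) ∨
      (∀ᶠ z in 𝓝[A n] x, F z ≤ F x + ξ (z - x) + κ * ‖z - x‖))

theorem EquivNorm.symm_sub {N : X → ℝ} (hN : EquivNorm N) (x y : X) : N (x - y) = N (y - x) := by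
  rw [← hN.neg, neg_sub]

/-- The bounded subgradients up to `κ` relative to `P` at the scale `1 / (m + 1)`. -/
def Sub (N F : X → ℝ) (s κ R : ℝ) (P : Set X) (m : ℕ) (x : X) : Set (X →L[ℝ] ℝ) :=
  {ξ | ‖ξ‖ ≤ R ∧ PB N s ξ ∧
    ∀ z ∈ P, ‖z - x‖ < 1 / ((m : ℝ) + 1) → F x + ξ (z - x) - κ * ‖z - x‖ ≤ F z}

theorem bound_of_sub {N : X → ℝ} {F : X → ℝ} {L κ : ℝ} (hN : EquivNorm N) (hF : NLip N L F)
    {x : X} {ξ : X →L[ℝ] ℝ} (h : ∀ᶠ z in 𝓝 x, F x + ξ (z - x) - κ * ‖z - x‖ ≤ F z) (v : X) :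
    ξ v ≤ L * N v + κ * ‖v‖ := by
  have hc : Tendsto (fun t : ℝ => x + t • v) (𝓝[>] 0) (𝓝 x) := by
    have h1 : Continuous fun t : ℝ => x + t • v := by fun_prop
    have h2 := h1.tendsto 0
    rw [zero_smul, add_zero] at h2
    exact h2.mono_left nhdsWithin_le_nhds
  obtain ⟨t, ht1, ht⟩ := ((hc.eventually h).and self_mem_nhdsWithin).exists
  rw [add_sub_cancel_left, map_smul, smul_eq_mul, norm_smul, Real.norm_of_nonneg ht.le] at ht1
  have h3 := hF (x + t • v) x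
  rw [add_sub_cancel_left, hN.smul, abs_of_pos ht] at h3
  have h4 := (abs_le.1 h3).2
  have h5 : t * ξ v ≤ t * (L * N v + κ * ‖v‖) := by
    have e1 : t * (L * N v + κ * ‖v‖) = L * (t * N v) + κ * (t * ‖v‖) := by ring
    rw [e1]
    linarith
  exact le_of_mul_le_mul_left h5 ht

theorem sub_closed {N F : X → ℝ} (hF : Continuous F) (s κ R : ℝ) (P : Set X) (m : ℕ) :
    IsClosed {p : X × WeakDual ℝ X | WeakDual.toStrongDual p.2 ∈ Sub N F s κ R P m p.1} := by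
  refine isClosed_of_closure_subset fun p₀ hp₀ => ?_
  have hB : IsClosed {p : X × WeakDual ℝ X | ‖WeakDual.toStrongDual p.2‖ ≤ R} := by
    have h1 := (WeakDual.isClosed_closedBall (𝕜 := ℝ) (E := X) 0 R).preimage
      (continuous_snd : Continuous fun p : X × WeakDual ℝ X => p.2)
    convert h1 using 1
    ext p
    rw [mem_preimage, mem_preimage, mem_closedBall_zero_iff]
    rfl
  have hR₀ : ‖WeakDual.toStrongDual p₀.2‖ ≤ R :=
    closure_minimal (fun p hp => (hp.1 : ‖WeakDual.toStrongDual p.2‖ ≤ R)) hB hp₀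
  refine ⟨hR₀, fun v => ?_, fun z hzP hz => ?_⟩
  · have h1 : IsClosed {p : X × WeakDual ℝ X | p.2 v ≤ s * N v} :=
      isClosed_le ((WeakDual.eval_continuous v).comp continuous_snd) continuous_const
    exact closure_minimal (fun p hp => (hp.2.1 v : p.2 v ≤ s * N v)) h1 hp₀
  have hcl : IsClosed ({p : X × WeakDual ℝ X | 1 / ((m : ℝ) + 1) ≤ ‖z - p.1‖} ∪
      {p : X × WeakDual ℝ X | F p.1 + p.2 (z - p₀.1) - R * ‖p.1 - p₀.1‖ - κ * ‖z - p.1‖ ≤
        F z}) := by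
    refine (isClosed_le continuous_const (by fun_prop)).union
      (isClosed_le ?_ continuous_const)
    have h1 : Continuous fun p : X × WeakDual ℝ X => p.2 (z - p₀.1) :=
      (WeakDual.eval_continuous (z - p₀.1)).comp continuous_snd
    have h2 : Continuous fun p : X × WeakDual ℝ X => F p.1 := hF.comp continuous_fst
    have h3 : Continuous fun p : X × WeakDual ℝ X => ‖p.1 - p₀.1‖ := by fun_prop
    have h4 : Continuous fun p : X × WeakDual ℝ X => ‖z - p.1‖ := by fun_prop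
    exact ((h2.add h1).sub (continuous_const.mul h3)).sub (continuous_const.mul h4)
  have hmem := closure_minimal (fun p hp => by
    by_cases hzp : ‖z - p.1‖ < 1 / ((m : ℝ) + 1)
    · right
      have h1 : F p.1 + WeakDual.toStrongDual p.2 (z - p.1) - κ * ‖z - p.1‖ ≤ F z :=
        hp.2.2 z hzP hzp
      have hpR : ‖WeakDual.toStrongDual p.2‖ ≤ R := hp.1
      have h2 : WeakDual.toStrongDual p.2 (p.1 - p₀.1) ≤ R * ‖p.1 - p₀.1‖ :=
        (le_abs_self _).trans (((WeakDual.toStrongDual p.2).le_opNorm _).trans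
          (mul_le_mul_of_nonneg_right hpR (norm_nonneg _)))
      have h3 : WeakDual.toStrongDual p.2 (p.1 - p₀.1) =
          WeakDual.toStrongDual p.2 (z - p₀.1) - WeakDual.toStrongDual p.2 (z - p.1) := by
        rw [← map_sub]
        congr 1
        abel
      have h4 : p.2 (z - p₀.1) = WeakDual.toStrongDual p.2 (z - p₀.1) := rfl
      change F p.1 + p.2 (z - p₀.1) - R * ‖p.1 - p₀.1‖ - κ * ‖z - p.1‖ ≤ F z
      rw [h4]
      linarith
    · left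
      exact not_lt.1 hzp) hcl hp₀
  rcases hmem with h | h
  · exact absurd hz (not_lt.2 h)
  · have h1 : F p₀.1 + p₀.2 (z - p₀.1) - R * ‖p₀.1 - p₀.1‖ - κ * ‖z - p₀.1‖ ≤ F z := h
    rw [sub_self, norm_zero, mul_zero, sub_zero] at h1
    exact h1

/-- The case of subgradients. -/
theorem exists_affine_core [CompleteSpace X] {C : ℝ} (hS : StarOne (fun x : X => ‖x‖) C)
    {N F : X → ℝ} (hFc : Continuous F) {P A : Set X} (hA : A.Nonempty) (hAP : A ⊆ closure P)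
    {s κ R : ℝ} (hκ : 0 < κ) {m : ℕ} (hne : ∀ x ∈ P, (Sub N F s κ R P m x).Nonempty) :
    ∃ x₀ ∈ A, ∃ ξ : X →L[ℝ] ℝ, ∃ r > 0, PB N s ξ ∧
      ∀ x ∈ A, ∀ y ∈ A, ‖x - x₀‖ < r → ‖y - x₀‖ < r →
        |(F x - ξ x) - (F y - ξ y)| ≤ 3 * κ * ‖x - y‖ := by
  have hclosed : IsClosed {x | (Sub N F s κ R P m x).Nonempty} :=
    proj_closed (WeakDual.isCompact_closedBall (𝕜 := ℝ) (E := X) 0 R)
      (sub_closed hFc s κ R P m) (fun p hp => by
        rw [mem_preimage, mem_closedBall_zero_iff]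
        exact hp.1)
  have hneA : ∀ x ∈ A, (Sub N F s κ R P m x).Nonempty := fun x hx =>
    closure_minimal hne hclosed (hAP hx)
  obtain ⟨x₀, hx₀, ξ₀, hξ₀, r, hr, hsel⟩ := exists_portion hS (Φ := Sub N F s κ R P m) (R := R)
    (fun x ξ hξ => hξ.1) (sub_closed hFc s κ R P m) hA hneA hκ
  have hn : (0 : ℝ) < 1 / (2 * ((m : ℝ) + 1)) := by positivity
  refine ⟨x₀, hx₀, ξ₀, min r (1 / (2 * ((m : ℝ) + 1))), lt_min hr hn, hξ₀.2.1, ?_⟩
  have key : ∀ x ∈ A, ∀ y ∈ A, ‖x - x₀‖ < min r (1 / (2 * ((m : ℝ) + 1))) →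
      ‖y - x₀‖ < min r (1 / (2 * ((m : ℝ) + 1))) →
      (F x - ξ₀ x) - (F y - ξ₀ y) ≤ 3 * κ * ‖x - y‖ := by
    intro x hx y hy hxr hyr
    obtain ⟨ξ, hξ, hξξ⟩ := hsel x hx (hxr.trans_le (min_le_left _ _))
    have hd : ‖y - x‖ < 1 / ((m : ℝ) + 1) := by
      have h1 : ‖y - x‖ ≤ ‖y - x₀‖ + ‖x - x₀‖ := by
        calc ‖y - x‖ = ‖(y - x₀) - (x - x₀)‖ := by rw [sub_sub_sub_cancel_right]
          _ ≤ _ := norm_sub_le _ _
      have h2 := hxr.trans_le (min_le_right _ _)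
      have h3 := hyr.trans_le (min_le_right _ _)
      have e1 : 1 / ((m : ℝ) + 1) = 1 / (2 * ((m : ℝ) + 1)) + 1 / (2 * ((m : ℝ) + 1)) := by
        field_simp
        norm_num
      rw [e1]
      linarith
    have hcl : IsClosed {z | F x + ξ (z - x) - κ * ‖z - x‖ ≤ F z} :=
      isClosed_le (by fun_prop) hFc
    have hsub : P ∩ ball x (1 / ((m : ℝ) + 1)) ⊆
        {z | F x + ξ (z - x) - κ * ‖z - x‖ ≤ F z} := fun z hz =>
      hξ.2.2 z hz.1 (by rw [← dist_eq_norm]; exact hz.2)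
    have h1 : F x + ξ (y - x) - κ * ‖y - x‖ ≤ F y := by
      have h2 : y ∈ closure (P ∩ ball x (1 / ((m : ℝ) + 1))) := by
        have h3 := isOpen_ball.inter_closure (s := ball x (1 / ((m : ℝ) + 1))) (t := P)
          ⟨by rw [mem_ball, dist_eq_norm]; exact hd, hAP hy⟩
        rwa [inter_comm] at h3
      exact closure_minimal hsub hcl h2
    have h2 : (ξ₀ - ξ) (y - x) ≤ 2 * κ * ‖y - x‖ := by
      refine (le_abs_self _).trans (((ξ₀ - ξ).le_opNorm _).trans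
        (mul_le_mul_of_nonneg_right ?_ (norm_nonneg _)))
      rw [norm_sub_rev]
      exact hξξ
    rw [sub_apply] at h2
    have h3 : ξ₀ (y - x) = ξ₀ y - ξ₀ x := map_sub _ _ _
    rw [norm_sub_rev x y]
    linarith
  intro x hx y hy hxr hyr
  rw [abs_le]
  have h1 := key x hx y hy hxr hyr
  have h2 := key y hy x hx hyr hxr
  rw [norm_sub_rev y x] at h2
  constructor <;> linarith

/-- The norm of a functional bounded by `s N`. -/
theorem PB.norm_le {N : X → ℝ} {b s : ℝ} (hb : ∀ x, N x ≤ b * ‖x‖) (hs : 0 ≤ s)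
    {ξ : X →L[ℝ] ℝ} (hξ : PB N s ξ) : ‖ξ‖ ≤ s * |b| := by
  have hv : ∀ v, ξ v ≤ s * |b| * ‖v‖ := by
    intro v
    have h2 : N v ≤ |b| * ‖v‖ := (hb v).trans
      (mul_le_mul_of_nonneg_right (le_abs_self b) (norm_nonneg v))
    have h3 := mul_le_mul_of_nonneg_left h2 hs
    have h4 := hξ v
    linarith
  refine ContinuousLinearMap.opNorm_le_bound _ (by positivity) fun v => ?_
  rw [Real.norm_eq_abs, abs_le]
  have h2 := hv v
  have h3 := hv (-v)
  rw [map_neg, norm_neg] at h3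
  constructor <;> linarith

/-- On every nonempty closed set a one-sided function is nearly affine on a portion. -/
theorem exists_affine [CompleteSpace X] {C : ℝ} (hS : StarOne (fun x : X => ‖x‖) C)
    {N : X → ℝ} {b : ℝ} (hN : EquivNorm N) (hb : ∀ x, N x ≤ b * ‖x‖) {F : X → ℝ} {L : ℝ}
    (hL : 0 ≤ L) (hFc : Continuous F) (h1 : SigmaOneSided N L F) {Z : Set X} (hZ : IsClosed Z)
    (hZn : Z.Nonempty) {κ : ℝ} (hκ : 0 < κ) :
    ∃ x₀ ∈ Z, ∃ ξ : X →L[ℝ] ℝ, ∃ r > 0, PB N (L + κ) ξ ∧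
      ∀ x ∈ Z, ∀ y ∈ Z, ‖x - x₀‖ < r → ‖y - x₀‖ < r →
        |(F x - ξ x) - (F y - ξ y)| ≤ 3 * κ * ‖x - y‖ := by
  obtain ⟨A, hAcov, hA⟩ := h1 κ hκ
  obtain ⟨R, hRdef⟩ : ∃ R : ℝ, R = (L + κ) * |b| := ⟨_, rfl⟩
  have hnorm : ∀ ξ : X →L[ℝ] ℝ, PB N (L + κ) ξ → ‖ξ‖ ≤ R := fun ξ hξ => by
    rw [hRdef]
    exact hξ.norm_le hb (by positivity)
  have hneg : ∀ ξ : X →L[ℝ] ℝ, PB N (L + κ) ξ → PB N (L + κ) (-ξ) := fun ξ hξ v => by
    have h2 := hξ (-v)
    rw [map_neg, hN.neg] at h2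
    exact h2
  obtain ⟨P, hP⟩ : ∃ P : (ℕ × ℕ) × Bool → Set X, P = fun p => if p.2 then
      {x | x ∈ A p.1.1 ∧ (Sub N F (L + κ) κ R (A p.1.1) p.1.2 x).Nonempty} else
      {x | x ∈ A p.1.1 ∧ (Sub N (fun x => -F x) (L + κ) κ R (A p.1.1) p.1.2 x).Nonempty} :=
    ⟨_, rfl⟩
  have hPt : ∀ n m, P ((n, m), true) =
      {x | x ∈ A n ∧ (Sub N F (L + κ) κ R (A n) m x).Nonempty} := fun n m => by
    rw [hP]
    rfl
  have hPf : ∀ n m, P ((n, m), false) =
      {x | x ∈ A n ∧ (Sub N (fun x => -F x) (L + κ) κ R (A n) m x).Nonempty} := fun n m => by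
    rw [hP]
    rfl
  have hcov : ∀ x : X, ∃ p, x ∈ P p := by
    intro x
    obtain ⟨n, hn⟩ := hAcov x
    obtain ⟨ξ, hξ, hξ'⟩ := hA n x hn
    rcases hξ' with hξ' | hξ'
    · obtain ⟨r, hr, h2⟩ := Metric.mem_nhdsWithin_iff.1 hξ'
      obtain ⟨m, hm⟩ := exists_nat_one_div_lt hr
      refine ⟨((n, m), true), ?_⟩
      rw [hPt]
      refine ⟨hn, ξ, hnorm ξ hξ, hξ, fun z hz hzx => h2 ⟨?_, hz⟩⟩
      rw [mem_ball, dist_eq_norm]
      exact hzx.trans hm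
    · obtain ⟨r, hr, h2⟩ := Metric.mem_nhdsWithin_iff.1 hξ'
      obtain ⟨m, hm⟩ := exists_nat_one_div_lt hr
      refine ⟨((n, m), false), ?_⟩
      rw [hPf]
      refine ⟨hn, -ξ, hnorm _ (hneg ξ hξ), hneg ξ hξ, fun z hz hzx => ?_⟩
      have h3 : F z ≤ F x + ξ (z - x) + κ * ‖z - x‖ := h2 ⟨by
        rw [mem_ball, dist_eq_norm]
        exact hzx.trans hm, hz⟩
      rw [neg_apply]
      linarith
  have : CompleteSpace Z := hZ.completeSpace_coe
  have : Nonempty Z := hZn.to_subtype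
  obtain ⟨⟨⟨n, m⟩, s⟩, hint⟩ := nonempty_interior_of_iUnion_of_closed (X := Z)
    (ι := (ℕ × ℕ) × Bool) (f := fun p => {x : Z | (x : X) ∈ closure (P p)}) (fun p =>
      isClosed_closure.preimage continuous_subtype_val) (by
      rw [eq_univ_iff_forall]
      intro x
      rw [mem_iUnion]
      obtain ⟨p, hp⟩ := hcov (x : X)
      exact ⟨p, subset_closure hp⟩)
  obtain ⟨x₁, hx₁⟩ := hint
  obtain ⟨r₁, hr₁, hball⟩ := Metric.isOpen_iff.1 isOpen_interior x₁ hx₁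
  have hball' : Z ∩ ball (x₁ : X) r₁ ⊆ closure (P ((n, m), s)) := by
    rintro x ⟨hx, hxr⟩
    have h2 : (⟨x, hx⟩ : Z) ∈ ball x₁ r₁ := by
      rw [mem_ball] at hxr ⊢
      exact hxr
    have h3 : (⟨x, hx⟩ : Z) ∈ {x : Z | (x : X) ∈ closure (P ((n, m), s))} :=
      interior_subset (hball h2)
    exact h3
  have hAne : (Z ∩ ball (x₁ : X) r₁).Nonempty := ⟨x₁, x₁.2, mem_ball_self hr₁⟩
  have fin : ∀ G : X → ℝ, Continuous G →
      (∀ x ∈ P ((n, m), s), (Sub N G (L + κ) κ R (P ((n, m), s)) m x).Nonempty) →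
      ∃ x₀ ∈ Z, ∃ ξ : X →L[ℝ] ℝ, ∃ r > 0, PB N (L + κ) ξ ∧
      ∀ x ∈ Z, ∀ y ∈ Z, ‖x - x₀‖ < r → ‖y - x₀‖ < r →
        |(G x - ξ x) - (G y - ξ y)| ≤ 3 * κ * ‖x - y‖ := by
    intro G hGc hGne
    obtain ⟨x₀, ⟨hx₀Z, hx₀b⟩, ξ, r, hr, hPB, hlip⟩ :=
      exists_affine_core hS hGc hAne hball' hκ hGne
    rw [mem_ball] at hx₀b
    refine ⟨x₀, hx₀Z, ξ, min r (r₁ - dist x₀ x₁), lt_min hr (by linarith), hPB,
      fun x hx y hy hxr hyr => hlip x ⟨hx, ?_⟩ y ⟨hy, ?_⟩ (hxr.trans_le (min_le_left _ _))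
      (hyr.trans_le (min_le_left _ _))⟩
    · have h2 := hxr.trans_le (min_le_right _ _)
      rw [← dist_eq_norm] at h2
      have h3 := dist_triangle x x₀ x₁
      rw [mem_ball]
      linarith
    · have h2 := hyr.trans_le (min_le_right _ _)
      rw [← dist_eq_norm] at h2
      have h3 := dist_triangle y x₀ x₁
      rw [mem_ball]
      linarith
  cases s
  · obtain ⟨x₀, hx₀, ξ, r, hr, hPB, hlip⟩ := fin (fun x => -F x) hFc.neg (fun x hx => by
      rw [hPf] at hx ⊢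
      obtain ⟨hxA, ξ, h2, h3, h4⟩ := hx
      exact ⟨ξ, h2, h3, fun z hz => h4 z hz.1⟩)
    refine ⟨x₀, hx₀, -ξ, r, hr, hneg ξ hPB, fun x hx y hy hxr hyr => ?_⟩
    have h2 := hlip x hx y hy hxr hyr
    rw [← abs_neg]
    have e1 : -((F x - (-ξ) x) - (F y - (-ξ) y)) = (-F x - ξ x) - (-F y - ξ y) := by
      rw [neg_apply, neg_apply]
      ring
    rw [e1]
    exact h2
  · exact fin _ hFc (fun x hx => by
      rw [hPt] at hx ⊢
      obtain ⟨hxA, ξ, h2, h3, h4⟩ := hx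
      exact ⟨ξ, h2, h3, fun z hz => h4 z hz.1⟩)

end Pool.Agent.MP_85fd23_an.B
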