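import Pool.Agent.Lib.MP_85fd23_an_B.Slice

/-!
# MP_85fd23_an, project B: a multivalued map into the dual nearly constant on a portion
-/

set_option autoImplicit false

open Filter Metric Set
open scoped Topology

namespace Pool.Agent.MP_85fd23_an.B

/-- Projections along compact sets are closed. -/
theorem proj_closed {X Y : Type*} [TopologicalSpace X] [TopologicalSpace Y] {B : Set Y}
    (hB : IsCompact B) {T : Set (X × Y)} (hT : IsClosed T) (hTB : ∀ p ∈ T, p.2 ∈ B) :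
    IsClosed {x | ∃ y, (x, y) ∈ T} := by
  rw [← isOpen_compl_iff, isOpen_iff_forall_mem_open]
  intro x hx
  simp only [mem_compl_iff, mem_ofPred_eq, not_exists] at hx
  obtain ⟨u, v, hu, -, hxu, hBv, huv⟩ := generalized_tube_lemma (isCompact_singleton (x := x)) hB
    hT.isOpen_compl (by
      rintro ⟨x', y⟩ ⟨hx', -⟩
      rw [mem_singleton_iff] at hx'
      subst hx'
      exact hx y)
  refine ⟨u, fun x' hx' => ?_, hu, hxu rfl⟩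
  simp only [mem_compl_iff, mem_ofPred_eq, not_exists]
  intro y hy
  exact huv (mk_mem_prod hx' (hBv (hTB _ hy))) hy

variable {X : Type*} [NormedAddCommGroup X] [NormedSpace ℝ X]

/-- A multivalued map with closed graph and bounded nonempty values in the dual space is nearly
constant on a portion. -/
theorem exists_portion [CompleteSpace X] {C : ℝ} (hS : StarOne (fun x : X => ‖x‖) C)
    {Φ : X → Set (X →L[ℝ] ℝ)} {R : ℝ} (hR : ∀ x, ∀ ξ ∈ Φ x, ‖ξ‖ ≤ R)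
    (hcl : IsClosed {p : X × WeakDual ℝ X | WeakDual.toStrongDual p.2 ∈ Φ p.1})
    {A : Set X} (hA : A.Nonempty) (hΦ : ∀ x ∈ A, (Φ x).Nonempty) {κ : ℝ} (hκ : 0 < κ) :
    ∃ x₀ ∈ A, ∃ ξ₀ ∈ Φ x₀, ∃ r > 0, ∀ x ∈ A, ‖x - x₀‖ < r → ∃ ξ ∈ Φ x, ‖ξ - ξ₀‖ ≤ 2 * κ := by
  obtain ⟨B, hB⟩ : ∃ B : Set (WeakDual ℝ X), B = WeakDual.toStrongDual ⁻¹' closedBall 0 R :=
    ⟨_, rfl⟩
  have hBc : IsCompact B := by rw [hB]; exact WeakDual.isCompact_closedBall 0 R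
  have hBcl : IsClosed B := by rw [hB]; exact WeakDual.isClosed_closedBall 0 R
  have hmB : ∀ x, ∀ ξ : WeakDual ℝ X, WeakDual.toStrongDual ξ ∈ Φ x → ξ ∈ B := by
    intro x ξ hξ
    rw [hB, mem_preimage, mem_closedBall_zero_iff]
    exact hR x _ hξ
  have hsec : ∀ x, IsClosed {ξ : WeakDual ℝ X | WeakDual.toStrongDual ξ ∈ Φ x} := fun x =>
    hcl.preimage (Continuous.prodMk_right x)
  obtain ⟨S, hSdef⟩ : ∃ S : Set (Set (WeakDual ℝ X)), S = {D | IsClosed D ∧ D ⊆ B ∧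
    ∀ x ∈ A, ∃ ξ ∈ D, WeakDual.toStrongDual ξ ∈ Φ x} := ⟨_, rfl⟩
  have hBS : B ∈ S := by
    rw [hSdef]
    refine ⟨hBcl, Subset.rfl, fun x hx => ?_⟩
    obtain ⟨ξ, hξ⟩ := hΦ x hx
    exact ⟨StrongDual.toWeakDual ξ, hmB x _ hξ, hξ⟩
  obtain ⟨D, -, hD⟩ := zorn_superset_nonempty S (fun c hc hchain hne => by
    refine ⟨⋂₀ c, ?_, fun s hs => sInter_subset_of_mem hs⟩
    rw [hSdef]
    obtain ⟨D₀, hD₀⟩ := hne
    have hcl' : ∀ s ∈ c, IsClosed s ∧ s ⊆ B ∧ ∀ x ∈ A, ∃ ξ ∈ s, WeakDual.toStrongDual ξ ∈ Φ x :=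
      fun s hs => by
        have := hc hs
        rw [hSdef] at this
        exact this
    refine ⟨isClosed_sInter fun s hs => (hcl' s hs).1,
      (sInter_subset_of_mem hD₀).trans (hcl' D₀ hD₀).2.1, fun x hx => ?_⟩
    have : Nonempty c := ⟨⟨D₀, hD₀⟩⟩
    have key := IsCompact.nonempty_iInter_of_directed_nonempty_isCompact_isClosed
      (fun s : c => (s : Set (WeakDual ℝ X)) ∩ {ξ | WeakDual.toStrongDual ξ ∈ Φ x}) ?_ ?_ ?_ ?_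
    · obtain ⟨ξ, hξ⟩ := key
      rw [mem_iInter] at hξ
      exact ⟨ξ, fun s hs => (hξ ⟨s, hs⟩).1, (hξ ⟨D₀, hD₀⟩).2⟩
    · intro s t
      rcases hchain.total s.2 t.2 with h | h
      · exact ⟨s, Subset.rfl, inter_subset_inter_left _ h⟩
      · exact ⟨t, inter_subset_inter_left _ h, Subset.rfl⟩
    · intro s
      obtain ⟨ξ, h1, h2⟩ := (hcl' s s.2).2.2 x hx
      exact ⟨ξ, h1, h2⟩
    · intro s
      exact hBc.of_isClosed_subset ((hcl' s s.2).1.inter (hsec x))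
        (inter_subset_left.trans (hcl' s s.2).2.1)
    · intro s
      exact (hcl' s s.2).1.inter (hsec x)) B hBS
  have hDS := hD.prop
  rw [hSdef] at hDS
  obtain ⟨hDc, hDB, hDA⟩ := hDS
  obtain ⟨a₀, ha₀⟩ := hA
  obtain ⟨ξ₁, hξ₁, -⟩ := hDA a₀ ha₀
  obtain ⟨u, c, ζ, ⟨ξ₂, hξ₂, hcξ₂⟩, hsl⟩ := exists_slice hS
    (D := {ξ : X →L[ℝ] ℝ | StrongDual.toWeakDual ξ ∈ D}) ⟨WeakDual.toStrongDual ξ₁, hξ₁⟩ (R := R)
    (fun ξ hξ => by
      have h1 := hDB hξ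
      rw [hB, mem_preimage, mem_closedBall_zero_iff] at h1
      exact h1) hκ
  have hev : Continuous fun ξ : WeakDual ℝ X => ξ u := WeakDual.eval_continuous u
  obtain ⟨D₂, hD₂⟩ : ∃ D₂ : Set (WeakDual ℝ X), D₂ = D ∩ {ξ | ξ u ≤ c} := ⟨_, rfl⟩
  have hD₂c : IsClosed D₂ := by
    rw [hD₂]
    exact hDc.inter (isClosed_le hev continuous_const)
  have hD₂n : D₂ ∉ S := by
    intro h
    have h1 : D ⊆ D₂ := hD.le_of_le h (by rw [hD₂]; exact inter_subset_left)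
    have h2 : StrongDual.toWeakDual ξ₂ ∈ D₂ := h1 hξ₂
    rw [hD₂] at h2
    have h3 : ξ₂ u ≤ c := h2.2
    linarith
  have hx₀ : ∃ x₀ ∈ A, ∀ ξ ∈ D₂, WeakDual.toStrongDual ξ ∉ Φ x₀ := by
    by_contra hcon
    push Not at hcon
    refine hD₂n ?_
    rw [hSdef]
    exact ⟨hD₂c, by rw [hD₂]; exact inter_subset_left.trans hDB, hcon⟩
  obtain ⟨x₀, hx₀A, hx₀⟩ := hx₀
  have hT : IsClosed {p : X × WeakDual ℝ X | p.2 ∈ D₂ ∧ WeakDual.toStrongDual p.2 ∈ Φ p.1} :=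
    (hD₂c.preimage continuous_snd).inter hcl
  have hP := proj_closed hBc hT (fun p hp => hmB p.1 p.2 hp.2)
  have hx₀P : x₀ ∈ {x | ∃ ξ, (x, ξ) ∈ {p : X × WeakDual ℝ X | p.2 ∈ D₂ ∧
      WeakDual.toStrongDual p.2 ∈ Φ p.1}}ᶜ := by
    rintro ⟨ξ, h1, h2⟩
    exact hx₀ ξ h1 h2
  obtain ⟨r, hr, hball⟩ := Metric.isOpen_iff.1 hP.isOpen_compl x₀ hx₀P
  have key : ∀ x ∈ A, ‖x - x₀‖ < r → ∃ ξ ∈ Φ x, ‖ξ - ζ‖ ≤ κ := by
    intro x hx hxr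
    obtain ⟨ξ, hξD, hξΦ⟩ := hDA x hx
    refine ⟨WeakDual.toStrongDual ξ, hξΦ, hsl _ hξD ?_⟩
    by_contra hcon
    rw [not_lt] at hcon
    have h1 : x ∈ ball x₀ r := by rw [mem_ball, dist_eq_norm]; exact hxr
    refine hball h1 ⟨ξ, ?_, hξΦ⟩
    rw [hD₂]
    exact ⟨hξD, hcon⟩
  obtain ⟨ξ₀, hξ₀, hξ₀ζ⟩ := key x₀ hx₀A (by rw [sub_self, norm_zero]; exact hr)
  refine ⟨x₀, hx₀A, ξ₀, hξ₀, r, hr, fun x hx hxr => ?_⟩
  obtain ⟨ξ, hξ, hξζ⟩ := key x hx hxr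
  refine ⟨ξ, hξ, ?_⟩
  calc ‖ξ - ξ₀‖ = ‖(ξ - ζ) - (ξ₀ - ζ)‖ := by rw [sub_sub_sub_cancel_right]
    _ ≤ ‖ξ - ζ‖ + ‖ξ₀ - ζ‖ := norm_sub_le _ _
    _ ≤ 2 * κ := by linarith

end Pool.Agent.MP_85fd23_an.B
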