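import Pool.Agent.Lib.MP_85fd23_an_B.Base

/-!
# MP_85fd23_an, project B: slices of small diameter

Ekeland's variational principle, applied to the difference of a `C^1` function near a support
function and this support function, gives a point where the support function is nearly
differentiable, so a slice of small diameter.
-/

set_option autoImplicit false

open Filter Metric Set
open scoped Topology

namespace Pool.Agent.MP_85fd23_an.B

/-- Ekeland's variational principle. -/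
theorem ekeland {Y : Type*} [PseudoMetricSpace Y] [CompleteSpace Y] (y₀ : Y) {f : Y → ℝ}
    (hf : Continuous f) {m : ℝ} (hm : ∀ y, m ≤ f y) {ε : ℝ} (hε : 0 < ε) :
    ∃ y, ∀ z, f y ≤ f z + ε * dist y z := by
  have step : ∀ (n : ℕ) (y : Y), ∃ y', f y' + ε * dist y y' ≤ f y ∧
      ∀ z, f z + ε * dist y z ≤ f y → f y' ≤ f z + (1 / 2 : ℝ) ^ n := by
    intro n y
    have hne : (f '' {y' | f y' + ε * dist y y' ≤ f y}).Nonempty := ⟨f y, y, by simp, rfl⟩
    have hbd : BddBelow (f '' {y' | f y' + ε * dist y y' ≤ f y}) := by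
      refine ⟨m, ?_⟩
      rintro _ ⟨y', -, rfl⟩
      exact hm y'
    obtain ⟨a, ⟨y', hy', rfl⟩, hlt⟩ := exists_lt_of_csInf_lt hne
      (lt_add_of_pos_right (sInf (f '' {y' | f y' + ε * dist y y' ≤ f y}))
        (by positivity : (0 : ℝ) < (1 / 2 : ℝ) ^ n))
    refine ⟨y', hy', fun z hz => ?_⟩
    have : sInf (f '' {y' | f y' + ε * dist y y' ≤ f y}) ≤ f z := csInf_le hbd ⟨z, hz, rfl⟩
    linarith
  choose g hg1 hg2 using step
  obtain ⟨s, hs0, hs⟩ : ∃ s : ℕ → Y, s 0 = y₀ ∧ ∀ n, s (n + 1) = g n (s n) :=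
    ⟨fun n => Nat.rec y₀ (fun k a => g k a) n, rfl, fun n => rfl⟩
  have h1 : ∀ n, f (s (n + 1)) + ε * dist (s n) (s (n + 1)) ≤ f (s n) := fun n => by
    rw [hs]; exact hg1 n (s n)
  have hsum : Summable fun n => dist (s n) (s (n + 1)) := by
    refine summable_of_sum_range_le (c := (f (s 0) - m) / ε) (fun n => dist_nonneg) fun n => ?_
    have key : f (s n) + ε * ∑ i ∈ Finset.range n, dist (s i) (s (i + 1)) ≤ f (s 0) := by
      induction n with
      | zero => simp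
      | succ n ih =>
        rw [Finset.sum_range_succ, mul_add]
        have := h1 n
        linarith
    rw [le_div_iff₀ hε]
    have := hm (s n)
    linarith
  obtain ⟨y, hy⟩ := cauchySeq_tendsto_of_complete (cauchySeq_of_summable_dist hsum)
  have hk : ∀ n k, f (s (n + k)) + ε * dist (s n) (s (n + k)) ≤ f (s n) := by
    intro n k
    induction k with
    | zero => simp
    | succ k ih =>
      have a := h1 (n + k)
      have b := dist_triangle (s n) (s (n + k)) (s (n + k + 1))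
      have c := mul_le_mul_of_nonneg_left b hε.le
      rw [← add_assoc]
      linarith
  have hlim : ∀ n, f y + ε * dist (s n) y ≤ f (s n) := by
    intro n
    have t1 : Tendsto (fun k => s (n + k)) atTop (𝓝 y) :=
      hy.comp (tendsto_add_atTop_nat n |>.congr fun k => by rw [Nat.add_comm])
    have t2 : Tendsto (fun k => f (s (n + k)) + ε * dist (s n) (s (n + k))) atTop
        (𝓝 (f y + ε * dist (s n) y)) :=
      ((hf.tendsto y).comp t1).add ((tendsto_const_nhds.dist t1).const_mul ε)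
    exact le_of_tendsto t2 (Eventually.of_forall fun k => hk n k)
  refine ⟨y, fun z => ?_⟩
  by_contra hcon
  rw [not_le] at hcon
  have hz : ∀ n, f (s (n + 1)) ≤ f z + (1 / 2 : ℝ) ^ n := by
    intro n
    rw [hs]
    refine hg2 n (s n) z ?_
    have a := hlim n
    have b := dist_triangle (s n) y z
    have c := mul_le_mul_of_nonneg_left b hε.le
    linarith
  have t3 : Tendsto (fun n => f (s (n + 1))) atTop (𝓝 (f y)) :=
    (hf.tendsto y).comp (hy.comp (tendsto_add_atTop_nat 1))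
  have t4 : Tendsto (fun n : ℕ => f z + (1 / 2 : ℝ) ^ n) atTop (𝓝 (f z + 0)) :=
    (tendsto_pow_atTop_nhds_zero_of_lt_one (by norm_num) (by norm_num)).const_add _
  have h5 := le_of_tendsto_of_tendsto' t3 t4 hz
  have h6 : 0 ≤ ε * dist y z := by positivity
  linarith

variable {X : Type*} [NormedAddCommGroup X] [NormedSpace ℝ X]

/-- A Lipschitz function is somewhere nearly superdifferentiable. -/
theorem exists_upper [CompleteSpace X] {C : ℝ} (hS : StarOne (fun x : X => ‖x‖) C) {σ : X → ℝ}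
    {R : ℝ} (hR : 0 ≤ R) (hσ : ∀ x y, |σ x - σ y| ≤ R * ‖x - y‖) {κ : ℝ} (hκ : 0 < κ) :
    ∃ (u : X) (ζ : X →L[ℝ] ℝ) (δ : ℝ), 0 < δ ∧
      ∀ v, ‖v‖ ≤ δ → σ (u + v) ≤ σ u + ζ v + κ * ‖v‖ := by
  obtain ⟨h, hh, hhσ, -⟩ := hS σ R hR hσ 1 one_pos
  have hσc : Continuous σ := by
    have : LipschitzWith (Real.toNNReal R) σ := by
      refine LipschitzWith.of_dist_le_mul fun x y => ?_
      rw [Real.dist_eq, dist_eq_norm, Real.coe_toNNReal R hR]
      exact hσ x y
    exact this.continuous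
  obtain ⟨u, hu⟩ := ekeland (0 : X) (f := fun x => h x - σ x) (hh.continuous.sub hσc)
    (m := -1) (fun y => (abs_le.1 (hhσ y)).1) (half_pos hκ)
  have hd := (hh.differentiable one_ne_zero u).hasFDerivAt
  rw [hasFDerivAt_iff_isLittleO_nhds_zero] at hd
  have h2 := hd.def (half_pos hκ)
  rw [Metric.eventually_nhds_iff] at h2
  obtain ⟨δ, hδ, h3⟩ := h2
  refine ⟨u, fderiv ℝ h u, δ / 2, half_pos hδ, fun v hv => ?_⟩
  have h4 := h3 (y := v) (by rw [dist_zero_right]; linarith)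
  rw [Real.norm_eq_abs] at h4
  have h5 := (abs_le.1 h4).2
  have h6 := hu (u + v)
  rw [dist_eq_norm, sub_add_cancel_left, norm_neg] at h6
  linarith

/-- A slice of small diameter. -/
theorem exists_slice [CompleteSpace X] {C : ℝ} (hS : StarOne (fun x : X => ‖x‖) C)
    {D : Set (X →L[ℝ] ℝ)} (hD : D.Nonempty) {R : ℝ} (hR : ∀ ξ ∈ D, ‖ξ‖ ≤ R) {κ : ℝ}
    (hκ : 0 < κ) : ∃ (u : X) (c : ℝ) (ζ : X →L[ℝ] ℝ), (∃ ξ ∈ D, c < ξ u) ∧
      ∀ ξ ∈ D, c < ξ u → ‖ξ - ζ‖ ≤ κ := by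
  have hR0 : 0 ≤ R := by
    obtain ⟨ξ, hξ⟩ := hD
    exact (norm_nonneg ξ).trans (hR ξ hξ)
  obtain ⟨σ, hσ⟩ : ∃ σ : X → ℝ, σ = fun x => sSup ((fun ξ : X →L[ℝ] ℝ => ξ x) '' D) := ⟨_, rfl⟩
  have hne : ∀ x : X, ((fun ξ : X →L[ℝ] ℝ => ξ x) '' D).Nonempty := fun x => hD.image _
  have hbd : ∀ x : X, BddAbove ((fun ξ : X →L[ℝ] ℝ => ξ x) '' D) := by
    intro x
    refine ⟨R * ‖x‖, ?_⟩
    rintro _ ⟨ξ, hξ, rfl⟩
    exact (le_abs_self _).trans ((ξ.le_opNorm x).trans
      (mul_le_mul_of_nonneg_right (hR ξ hξ) (norm_nonneg x)))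
  have hle : ∀ ξ ∈ D, ∀ x, ξ x ≤ σ x := fun ξ hξ x => by
    rw [hσ]; exact le_csSup (hbd x) ⟨ξ, hξ, rfl⟩
  have hlip1 : ∀ x y, σ x ≤ σ y + R * ‖x - y‖ := by
    intro x y
    have hx : σ x = sSup ((fun ξ : X →L[ℝ] ℝ => ξ x) '' D) := by rw [hσ]
    rw [hx]
    refine csSup_le (hne x) ?_
    rintro _ ⟨ξ, hξ, rfl⟩
    have h1 := hle ξ hξ y
    have h2 : ξ (x - y) ≤ R * ‖x - y‖ := (le_abs_self _).trans ((ξ.le_opNorm _).trans
      (mul_le_mul_of_nonneg_right (hR ξ hξ) (norm_nonneg _)))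
    rw [map_sub] at h2
    simp only
    linarith
  have hlip : ∀ x y, |σ x - σ y| ≤ R * ‖x - y‖ := by
    intro x y
    rw [abs_le]
    have h1 := hlip1 x y
    have h2 := hlip1 y x
    rw [norm_sub_rev] at h2
    constructor <;> linarith
  obtain ⟨u, ζ, δ, hδ, hu⟩ := exists_upper hS hR0 hlip (half_pos hκ)
  refine ⟨u, σ u - κ / 2 * δ, ζ, ?_, ?_⟩
  · have h1 : σ u - κ / 2 * δ < sSup ((fun ξ : X →L[ℝ] ℝ => ξ u) '' D) := by
      have hx : σ u = sSup ((fun ξ : X →L[ℝ] ℝ => ξ u) '' D) := by rw [hσ]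
      rw [← hx]
      have : 0 < κ / 2 * δ := by positivity
      linarith
    obtain ⟨_, ⟨ξ, hξ, rfl⟩, h2⟩ := exists_lt_of_lt_csSup (hne u) h1
    exact ⟨ξ, hξ, h2⟩
  · intro ξ hξ hc
    have key : ∀ v, ‖v‖ = δ → (ξ - ζ) v ≤ κ * δ := by
      intro v hv
      have h1 := hu v hv.le
      have h2 := hle ξ hξ (u + v)
      rw [map_add] at h2
      rw [hv] at h1
      rw [sub_apply]
      linarith
    refine ContinuousLinearMap.opNorm_le_bound _ hκ.le fun w => ?_
    rcases eq_or_ne w 0 with rfl | hw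
    · simp
    have hw' : 0 < ‖w‖ := norm_pos_iff.2 hw
    have key2 : ∀ w' : X, ‖w'‖ = ‖w‖ → (ξ - ζ) w' ≤ κ * ‖w‖ := by
      intro w' hw2
      have h1 := key ((δ / ‖w‖) • w') (by
        rw [norm_smul, Real.norm_of_nonneg (by positivity), hw2]
        field_simp)
      rw [map_smul, smul_eq_mul] at h1
      have h2 := mul_le_mul_of_nonneg_left h1 (by positivity : 0 ≤ ‖w‖ / δ)
      have e1 : ‖w‖ / δ * (δ / ‖w‖ * (ξ - ζ) w') = (ξ - ζ) w' := by field_simp
      have e2 : ‖w‖ / δ * (κ * δ) = κ * ‖w‖ := by field_simp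
      rwa [e1, e2] at h2
    rw [Real.norm_eq_abs, abs_le]
    have h1 := key2 w rfl
    have h2 := key2 (-w) (norm_neg w)
    rw [map_neg] at h2
    constructor <;> linarith

end Pool.Agent.MP_85fd23_an.B
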